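import Pool.Agent.H81.FI.St

/-!
# The directed path with two arcs
-/

set_option autoImplicit false

namespace Pool.Agent.H81.FI

open Finset Pool.Agent.K7.H15.Irr Pool.Agent.K7.H12.FI Pool.Agent.K7.H62.FI

/-- the in-degree of the centre `i` -/
def dd (n i : ℕ) : ℕ := n - 1 - i + if 0 < i then 1 else 0

/-- the arcs -/
def Aq (n : ℕ) : Vn n 1 → Vn n 1 → Prop
  | .inl i, .inl j => j < i
  | .inl i, .inr (.inl j) => i ≤ j
  | .inr (.inr _), .inl i => 0 < (i : ℕ)
  | _, _ => False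

def Gq (n : ℕ) : OrientedGraph (Vn n 1) where
  Arc := Aq n
  asymm := by
    rintro (i | (j | k)) (i' | (j' | k')) h h' <;> simp only [Aq] at h h'
    exact absurd h (lt_asymm h')

theorem outq (n : ℕ) (i : Fin n) : Nat.card {b // Aq n (.inl i) b} = n := by
  have h : ∀ b, Aq n (.inl i) b ↔ Ar n 1 (.inl i) b := by
    rintro (j | (j | k)) <;> rfl
  exact (Nat.card_congr (Equiv.subtypeEquivRight h)).trans (outdeg n 1 i)

theorem inq (n : ℕ) (i : Fin n) : Nat.card {a // Aq n a (.inl i)} = dd n i := by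
  classical
  rw [card_sum, Fintype.sum_sum_type, Fintype.sum_sum_type]
  have h1 : ∑ j : Fin n, (if Aq n (.inl j) (.inl i) then 1 else 0) = n - 1 - (i : ℕ) := by
    rw [← card_filter]
    have : (univ.filter fun j : Fin n => Aq n (.inl j) (.inl i)) = Ioi i := by
      ext j; rw [mem_filter]; simp [Aq]
    rw [this, Fin.card_Ioi]
  have h2 : ∑ j : Fin n, (if Aq n (.inr (.inl j)) (.inl i) then 1 else 0) = 0 :=
    sum_eq_zero fun k _ => if_neg (by simp [Aq])
  have h3 : ∑ k : Fin 1, (if Aq n (.inr (.inr k)) (.inl i) then 1 else 0) =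
      if 0 < (i : ℕ) then 1 else 0 := by
    rw [Fin.sum_univ_one]
    exact if_congr Iff.rfl rfl rfl
  rw [h1, h2, h3]
  unfold dd
  omega

theorem outq_zero (n : ℕ) (j : Fin n) : Nat.card {b // Aq n (.inr (.inl j)) b} = 0 := by
  have : IsEmpty {b // Aq n (.inr (.inl j)) b} := ⟨fun b => by
    obtain ⟨(b | (b | b)), hb⟩ := b <;> simp [Aq] at hb⟩
  exact Nat.card_of_isEmpty

theorem inq_zero (n : ℕ) (k : Fin 1) : Nat.card {a // Aq n a (.inr (.inr k))} = 0 := by
  have : IsEmpty {a // Aq n a (.inr (.inr k))} := ⟨fun b => by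
    obtain ⟨(b | (b | b)), hb⟩ := b <;> simp [Aq] at hb⟩
  exact Nat.card_of_isEmpty

theorem TTq (n : ℕ) (s : Vn n 1) : TT (Gq n) 1 1 s = match s with
    | .inl i => dd n i * n
    | _ => 0 := by
  unfold TT
  rw [Nat.descFactorial_one, Nat.descFactorial_one]
  rcases s with (i | (j | k))
  · have h1 : Nat.card {a // (Gq n).Arc a (.inl i)} = dd n i := inq n i
    have h2 : Nat.card {b // (Gq n).Arc (.inl i) b} = n := outq n i
    rw [h1, h2]
  · have h2 : Nat.card {b // (Gq n).Arc (.inr (.inl j)) b} = 0 := outq_zero n j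
    rw [h2, mul_zero]
  · have h2 : Nat.card {a // (Gq n).Arc a (.inr (.inr k))} = 0 := inq_zero n k
    rw [h2, zero_mul]

theorem tmq (n : ℕ) (i : Fin n) {v : Vn n 1} (hv : (.inl i : Vn n 1) ≠ v) (x y : ℕ)
    (hx : (Aq n v (.inl i) ∧ x = 1) ∨ (¬ Aq n v (.inl i) ∧ x = 0))
    (hy : (Aq n (.inl i) v ∧ y = 1) ∨ (¬ Aq n (.inl i) v ∧ y = 0)) :
    tm (Gq n) 1 1 v (.inl i) = (dd n i - x) * (n - y) := by
  classical
  rw [tm_ne _ _ _ hv, Nat.descFactorial_one, Nat.descFactorial_one]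
  have h3 : Nat.card {a // (Gq n).Arc a (.inl i) ∧ a ≠ v} = dd n i - x := by
    rw [card_ne (fun b => (Gq n).Arc b (.inl i))]
    have : Nat.card {b // (Gq n).Arc b (.inl i)} = dd n i := inq n i
    rw [this]
    rcases hx with ⟨h1, h2⟩ | ⟨h1, h2⟩
    · rw [if_pos (show (Gq n).Arc v (.inl i) from h1), h2]
    · rw [if_neg (show ¬ (Gq n).Arc v (.inl i) from h1), h2]
  have h4 : Nat.card {b // (Gq n).Arc (.inl i) b ∧ b ≠ v} = n - y := by
    rw [card_ne (fun b => (Gq n).Arc (.inl i) b)]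
    have : Nat.card {b // (Gq n).Arc (.inl i) b} = n := outq n i
    rw [this]
    rcases hy with ⟨h1, h2⟩ | ⟨h1, h2⟩
    · rw [if_pos (show (Gq n).Arc (.inl i) v from h1), h2]
    · rw [if_neg (show ¬ (Gq n).Arc (.inl i) v from h1), h2]
  rw [h3, h4]

theorem Msq (n : ℕ) (v : Vn n 1) :
    Ms (Gq n) 1 1 v = ∑ i : Fin n, tm (Gq n) 1 1 v (.inl i) := by
  classical
  unfold Ms
  rw [Fintype.sum_sum_type, Fintype.sum_sum_type]
  have h : ∀ s : Fin n ⊕ Fin 1, tm (Gq n) 1 1 v (.inr s) = 0 := by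
    intro s
    have h1 := tm_le (Gq n) 1 1 v (.inr s)
    rw [TTq] at h1
    exact Nat.le_zero.1 h1
  rw [sum_eq_zero (fun j _ => h (.inl j)), sum_eq_zero (fun j _ => h (.inr j)), add_zero, add_zero]

theorem sum_TTq (n : ℕ) : ∑ s, TT (Gq n) 1 1 s = ∑ i : Fin n, dd n i * n := by
  rw [Fintype.sum_sum_type]
  have h : ∑ s : Fin n ⊕ Fin 1, TT (Gq n) 1 1 (.inr s) = 0 :=
    sum_eq_zero fun s _ => by rw [TTq]
  rw [h, add_zero]
  exact sum_congr rfl fun i _ => by rw [TTq]

/-- the numbers of copies -/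
def CC (n k : ℕ) : ℕ :=
  ∑ i ∈ range n, if i = k then dd n k * n else if i < k then n else dd n i
def SJ (n j : ℕ) : ℕ := ∑ i ∈ range n, if i ≤ j then dd n i else 0
def ZZ (n : ℕ) : ℕ := ∑ i ∈ range n, if 0 < i then n else 0

section

variable {X : Type} [Finite X] (F : OrientedGraph X) (hF : F.WeaklyConnected) {c : X}
  (hc' : ∀ x y, F.Arc x y → x = c ∨ y = c) (hp : Nat.card {x // F.Arc x c} = 1)
  (hq : Nat.card {y // F.Arc c y} = 1)

include hF hc' hp hq

theorem hc_of (n : ℕ) (v : Vn n 1) (w : ℕ → ℕ)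
    (hw : ∀ i : Fin n, w i + tm (Gq n) 1 1 v (.inl i) = dd n i * n) :
    hc F (Gq n) v = ∑ i ∈ range n, w i := by
  have h := hc_add F (Gq n) hF hc' v
  rw [hp, hq, Msq, sum_TTq] at h
  rw [← sum_congr rfl (fun i _ => hw i), sum_add_distrib] at h
  rw [← Fin.sum_univ_eq_sum_range w]
  omega

theorem hc_C (n : ℕ) (k : Fin n) : hc F (Gq n) (.inl k) = CC n k := by
  refine hc_of F hF hc' hp hq n _ _ fun i => ?_
  by_cases h1 : i = k
  · subst h1
    rw [if_pos rfl, tm_self, add_zero]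
  · have h0 : (.inl i : Vn n 1) ≠ .inl k := fun h => h1 (Sum.inl.inj h)
    have h1' : ¬ (i : ℕ) = k := fun h => h1 (Fin.val_injective h)
    have hi := i.2
    have hk := k.2
    rw [if_neg h1']
    by_cases h2 : i < k
    · have h3 : ¬ k < i := lt_asymm h2
      rw [tmq n i h0 1 0 (Or.inl ⟨h2, rfl⟩) (Or.inr ⟨h3, rfl⟩),
        if_pos (show (i : ℕ) < k from h2)]
      have h4 : (i : ℕ) < k := h2
      obtain ⟨e, he⟩ : ∃ e, dd n i = e + 1 := ⟨dd n i - 1, by unfold dd; omega⟩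
      rw [he, Nat.add_sub_cancel, Nat.sub_zero]
      ring
    · have h3 : k < i := lt_of_le_of_ne (not_lt.1 h2) (Ne.symm h1)
      rw [tmq n i h0 0 1 (Or.inr ⟨h2, rfl⟩) (Or.inl ⟨h3, rfl⟩),
        if_neg (show ¬ (i : ℕ) < k from h2)]
      obtain ⟨e, he⟩ : ∃ e, n = e + 1 := ⟨n - 1, by omega⟩
      have : n - 1 = e := by omega
      rw [Nat.sub_zero, this]
      generalize dd n (i : ℕ) = z
      rw [he]
      ring

theorem hc_S (n : ℕ) (j : Fin n) : hc F (Gq n) (.inr (.inl j)) = SJ n j := by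
  refine hc_of F hF hc' hp hq n _ _ fun i => ?_
  have h0 : (.inl i : Vn n 1) ≠ .inr (.inl j) := fun h => by cases h
  have hi := i.2
  by_cases h2 : i ≤ j
  · rw [tmq n i h0 0 1 (Or.inr ⟨fun h => h, rfl⟩) (Or.inl ⟨h2, rfl⟩),
      if_pos (show (i : ℕ) ≤ j from h2)]
    obtain ⟨e, he⟩ : ∃ e, n = e + 1 := ⟨n - 1, by omega⟩
    have : n - 1 = e := by omega
    rw [Nat.sub_zero, this]
    generalize dd n (i : ℕ) = z
    rw [he]
    ring
  · rw [tmq n i h0 0 0 (Or.inr ⟨fun h => h, rfl⟩) (Or.inr ⟨h2, rfl⟩),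
      if_neg (show ¬ (i : ℕ) ≤ j from h2), Nat.sub_zero, Nat.sub_zero, zero_add]

theorem hc_Z (n : ℕ) (k : Fin 1) : hc F (Gq n) (.inr (.inr k)) = ZZ n := by
  refine hc_of F hF hc' hp hq n _ _ fun i => ?_
  have h0 : (.inl i : Vn n 1) ≠ .inr (.inr k) := fun h => by cases h
  have hi := i.2
  by_cases h2 : 0 < (i : ℕ)
  · rw [tmq n i h0 1 0 (Or.inl ⟨h2, rfl⟩) (Or.inr ⟨fun h => h, rfl⟩), if_pos h2]
    obtain ⟨e, he⟩ : ∃ e, dd n i = e + 1 := ⟨dd n i - 1, by unfold dd; rw [if_pos h2]; omega⟩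
    rw [he, Nat.add_sub_cancel, Nat.sub_zero]
    ring
  · rw [tmq n i h0 0 0 (Or.inr ⟨h2, rfl⟩) (Or.inr ⟨fun h => h, rfl⟩), if_neg h2,
      Nat.sub_zero, Nat.sub_zero, zero_add]

end

/-! ### The values -/

/-- `∑ (n - i)` -/
def EE (n m : ℕ) : ℕ := ∑ i ∈ Ico m n, (n - i)

theorem EE_succ {n m : ℕ} (h : m < n) : EE n m = (n - m) + EE n (m + 1) :=
  Finset.sum_eq_sum_Ico_succ_bot h _

theorem EE_closed (n r : ℕ) (hr : r ≤ n) : 2 * EE n (n - r) = r * (r + 1) := by
  induction r with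
  | zero => simp [EE]
  | succ r ih =>
    rw [EE_succ (show n - (r + 1) < n by omega)]
    have h1 : n - (r + 1) + 1 = n - r := by omega
    have h2 : n - (n - (r + 1)) = r + 1 := by omega
    rw [h1, h2, mul_add, ih (by omega)]
    ring

theorem dd_pos {n i : ℕ} (hi : 0 < i) (hn : i < n) : dd n i = n - i := by
  unfold dd
  rw [if_pos hi]
  omega

theorem split (n k : ℕ) (hk : k < n) (f : ℕ → ℕ) :
    ∑ i ∈ range n, f i = ∑ i ∈ range k, f i + (f k + ∑ i ∈ Ico (k + 1) n, f i) := by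
  rw [← Finset.sum_eq_sum_Ico_succ_bot hk, Finset.range_eq_Ico, Finset.range_eq_Ico,
    Finset.sum_Ico_consecutive _ (Nat.zero_le _) hk.le]

theorem CC_pos {n k : ℕ} (hk : 0 < k) (hn : k < n) : CC n k = n * n + EE n (k + 1) := by
  unfold CC
  rw [split n k hn]
  have h1 : ∑ i ∈ range k, (if i = k then dd n k * n else if i < k then n else dd n i) =
      k * n := by
    rw [sum_congr rfl (fun i hi => by
      rw [if_neg (mem_range.1 hi).ne, if_pos (mem_range.1 hi)] : ∀ i ∈ range k, _ = n),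
      sum_const, card_range, smul_eq_mul]
  have h2 : ∑ i ∈ Ico (k + 1) n, (if i = k then dd n k * n else if i < k then n else dd n i) =
      EE n (k + 1) := by
    refine sum_congr rfl fun i hi => ?_
    rw [mem_Ico] at hi
    rw [if_neg (by omega), if_neg (by omega), dd_pos (by omega) hi.2]
  rw [h1, h2, if_pos rfl, dd_pos hk hn, ← add_assoc, ← add_mul]
  congr 2
  omega

theorem CC_zero {n : ℕ} (hn : 0 < n) : CC n 0 = (n - 1) * n + EE n 1 := by
  unfold CC
  rw [split n 0 hn]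
  have h2 : ∑ i ∈ Ico (0 + 1) n, (if i = 0 then dd n 0 * n else if i < 0 then n else dd n i) =
      EE n 1 := by
    refine sum_congr rfl fun i hi => ?_
    rw [mem_Ico] at hi
    rw [if_neg (by omega), if_neg (by omega), dd_pos (by omega) hi.2]
  rw [h2, if_pos rfl]
  simp [dd]

theorem ZZ_eq {n : ℕ} (hn : 0 < n) : ZZ n = (n - 1) * n := by
  unfold ZZ
  rw [split n 0 hn]
  have h2 : ∑ i ∈ Ico (0 + 1) n, (if 0 < i then n else 0) = (n - 1) * n := by
    rw [sum_congr rfl (fun i hi => by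
      rw [mem_Ico] at hi
      rw [if_pos (by omega)] : ∀ i ∈ Ico (0 + 1) n, _ = n),
      sum_const, Nat.card_Ico, smul_eq_mul]
  rw [h2]
  simp

theorem SJ_top {n : ℕ} (hn : 0 < n) (j : ℕ) : SJ n j ≤ (n - 1) + EE n 1 := by
  unfold SJ
  have h0 : ∑ i ∈ range n, (if i ≤ j then dd n i else 0) ≤ ∑ i ∈ range n, dd n i := by
    refine sum_le_sum fun i _ => ?_
    split_ifs
    · exact le_rfl
    · exact Nat.zero_le _
  refine h0.trans (le_of_eq ?_)
  rw [split n 0 hn]
  have h2 : ∑ i ∈ Ico (0 + 1) n, dd n i = EE n 1 := by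
    refine sum_congr rfl fun i hi => ?_
    rw [mem_Ico] at hi
    rw [dd_pos (by omega) hi.2]
  rw [h2]
  simp [dd]

theorem SJ_lt {n j j' : ℕ} (hj : j < j') (hn : j' < n) : SJ n j < SJ n j' := by
  unfold SJ
  refine sum_lt_sum (fun i _ => ?_) ⟨j', mem_range.2 hn, ?_⟩
  · by_cases h : i ≤ j
    · rw [if_pos h, if_pos (by omega)]
    · rw [if_neg h]
      exact Nat.zero_le _
  · rw [if_neg (by omega), if_pos le_rfl, dd_pos (by omega) hn]
    omega

theorem SJ_ge {n : ℕ} (hn : 2 ≤ n) (j : ℕ) : n - 1 ≤ SJ n j := by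
  unfold SJ
  rw [split n 0 (by omega)]
  have : n - 1 ≤ (if 0 ≤ j then dd n 0 else 0) := by
    rw [if_pos (Nat.zero_le _)]
    unfold dd
    simp
  omega

theorem CC_anti {n k k' : ℕ} (hk : 0 < k) (hkk : k < k') (hn : k' < n) : CC n k' < CC n k := by
  induction k', hkk using Nat.le_induction with
  | base =>
    change k + 1 < n at hn
    change CC n (k + 1) < CC n k
    rw [CC_pos hk (by omega), CC_pos (by omega) hn, EE_succ (show k + 1 < n by omega)]
    omega
  | succ m hm ih =>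
    refine lt_trans ?_ (ih (by omega))
    rw [CC_pos (by omega) (show m < n by omega), CC_pos (by omega) hn,
      EE_succ (show m + 1 < n by omega)]
    omega

theorem CC_zero_ne {n k : ℕ} (hn : 4 ≤ n) (hk : 0 < k) (hkn : k < n) : CC n 0 ≠ CC n k := by
  have h0 := CC_zero (show 0 < n by omega)
  have h1 := CC_pos (show 0 < 1 by omega) (show 1 < n by omega)
  have h2 := CC_pos (show 0 < 2 by omega) (show 2 < n by omega)
  have e1 := EE_succ (show 1 < n by omega)
  have e2 := EE_succ (show 2 < n by omega)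
  have e3 : (n - 1) * n + n = n * n := by
    obtain ⟨m, rfl⟩ : ∃ m, n = m + 1 := ⟨n - 1, by omega⟩
    rw [Nat.add_sub_cancel]
    ring
  norm_num at h1 h2 e1 e2
  rcases Nat.lt_trichotomy k 2 with h | h | h
  · have : k = 1 := by omega
    subst this
    omega
  · subst h
    omega
  · have := CC_anti (show 0 < 2 by omega) h hkn
    omega

theorem ZZ_lt_CC {n k : ℕ} (hn : 2 ≤ n) (hk : k < n) : ZZ n < CC n k := by
  rw [ZZ_eq (by omega)]
  have e3 : (n - 1) * n + n = n * n := by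
    obtain ⟨m, rfl⟩ : ∃ m, n = m + 1 := ⟨n - 1, by omega⟩
    rw [Nat.add_sub_cancel]
    ring
  rcases Nat.eq_zero_or_pos k with rfl | h
  · rw [CC_zero (by omega), EE_succ (show 1 < n by omega)]
    omega
  · rw [CC_pos h hk]
    omega

theorem SJ_lt_ZZ {n : ℕ} (hn : 3 ≤ n) (j : ℕ) : SJ n j < ZZ n := by
  rw [ZZ_eq (by omega)]
  refine lt_of_le_of_lt (SJ_top (by omega) j) ?_
  have h := EE_closed n (n - 1) (by omega)
  have h1 : n - (n - 1) = 1 := by omega
  rw [h1, Nat.sub_add_cancel (by omega)] at h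
  have h2 : 2 * (n - 1) < (n - 1) * n := by
    rw [mul_comm]
    exact Nat.mul_lt_mul_of_pos_left (by omega) (by omega)
  omega

/-- the directed path with two arcs -/
theorem has_path {X : Type} [Finite X] (F : OrientedGraph X) (hF : F.WeaklyConnected) (c : X)
    (hc' : ∀ x y, F.Arc x y → x = c ∨ y = c) (hp : Nat.card {x // F.Arc x c} = 1)
    (hq : Nat.card {y // F.Arc c y} = 1) : EV F := by
  refine ⟨1, fun L => ⟨4 + L, fun n hn' => ?_⟩⟩
  have hn : 4 ≤ n := by omega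
  refine ⟨Vn n 1, inferInstance, Gq n, ?_, ?_, ?_⟩
  · rw [card_Vn]
    ring
  · rintro (v | (j | k)) (v' | (j' | k')) h
    · rw [hc_C F hF hc' hp hq, hc_C F hF hc' hp hq] at h
      have hv := v.2
      have hv' := v'.2
      have : (v : ℕ) = v' := by
        rcases Nat.eq_zero_or_pos (v : ℕ) with h1 | h1
        · rcases Nat.eq_zero_or_pos (v' : ℕ) with h3 | h3
          · omega
          · rw [h1] at h
            exact absurd h (CC_zero_ne hn h3 hv')
        · rcases Nat.eq_zero_or_pos (v' : ℕ) with h3 | h3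
          · rw [h3] at h
            exact absurd h.symm (CC_zero_ne hn h1 hv)
          · rcases Nat.lt_trichotomy (v : ℕ) v' with h4 | h4 | h4
            · exact absurd h (CC_anti h1 h4 hv').ne'
            · exact h4
            · exact absurd h (CC_anti h3 h4 hv).ne
      rw [Fin.val_injective this]
    · rw [hc_C F hF hc' hp hq, hc_S F hF hc' hp hq] at h
      have h3 := ZZ_lt_CC (show 2 ≤ n by omega) v.2
      have h4 := SJ_lt_ZZ (show 3 ≤ n by omega) j'
      omega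
    · rw [hc_C F hF hc' hp hq, hc_Z F hF hc' hp hq] at h
      have h3 := ZZ_lt_CC (show 2 ≤ n by omega) v.2
      omega
    · rw [hc_C F hF hc' hp hq, hc_S F hF hc' hp hq] at h
      have h3 := ZZ_lt_CC (show 2 ≤ n by omega) v'.2
      have h4 := SJ_lt_ZZ (show 3 ≤ n by omega) j
      omega
    · rw [hc_S F hF hc' hp hq, hc_S F hF hc' hp hq] at h
      rcases Nat.lt_trichotomy (j : ℕ) j' with h4 | h4 | h4
      · exact absurd h (SJ_lt h4 j'.2).ne
      · rw [Fin.val_injective h4]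
      · exact absurd h (SJ_lt h4 j.2).ne'
    · rw [hc_S F hF hc' hp hq, hc_Z F hF hc' hp hq] at h
      have h4 := SJ_lt_ZZ (show 3 ≤ n by omega) j
      omega
    · rw [hc_C F hF hc' hp hq, hc_Z F hF hc' hp hq] at h
      have h3 := ZZ_lt_CC (show 2 ≤ n by omega) v'.2
      omega
    · rw [hc_S F hF hc' hp hq, hc_Z F hF hc' hp hq] at h
      have h4 := SJ_lt_ZZ (show 3 ≤ n by omega) j'
      omega
    · rw [Subsingleton.elim k k']
  · have h4 := SJ_lt_ZZ (show 3 ≤ n by omega) 0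
    have h5 := SJ_ge (show 2 ≤ n by omega) 0
    rintro (v | (j | k))
    · rw [hc_C F hF hc' hp hq]
      have h3 := ZZ_lt_CC (show 2 ≤ n by omega) v.2
      omega
    · rw [hc_S F hF hc' hp hq]
      have h6 := SJ_ge (show 2 ≤ n by omega) (j : ℕ)
      omega
    · rw [hc_Z F hF hc' hp hq]
      omega

end Pool.Agent.H81.FI
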