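import Pool.Agent.H81.FI.NS
import Pool.Agent.H81.FI.P3

/-!
# All large orders
-/

set_option autoImplicit false

namespace Pool.Agent.H81.FI

open Pool.Agent.K7.H15.Irr Pool.Agent.K7.H12.FI

universe u

theorem ev_F {X : Type} [Finite X] (F : OrientedGraph X) (hF : F.WeaklyConnected)
    (h3 : 3 ≤ Nat.card X) : EV F := by
  classical
  by_cases h : ∀ c : X, ∃ x y, F.Arc x y ∧ x ≠ c ∧ y ≠ c
  · exact has_ns F hF h3 h
  push Not at h
  obtain ⟨c, hc⟩ := h
  have hc' : ∀ x y, F.Arc x y → x = c ∨ y = c := by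
    intro x y hxy
    by_contra hcon
    push Not at hcon
    exact hcon.2 (hc x y hxy hcon.1)
  have hcr : ∀ x y, (K7.H12.FI.rev F).Arc x y → x = c ∨ y = c := fun x y h => (hc' y x h).symm
  have hFr := K7.H12.FI.connected_rev hF
  have hcov : (Set.univ : Set X) ⊆ {c} ∪ ({y | F.Arc c y} ∪ {y | F.Arc y c}) := by
    intro x _
    by_cases hxc : x = c
    · exact Or.inl hxc
    · rcases Pool.Agent.K7.H62.FI.star_cases F hF hc' hxc with h | h
      · exact Or.inr (Or.inr h)
      · exact Or.inr (Or.inl h)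
  have hcard := Set.ncard_le_ncard hcov (Set.toFinite _)
  rw [Set.ncard_univ] at hcard
  have hu1 := Set.ncard_union_le {c} ({y | F.Arc c y} ∪ {y | F.Arc y c})
  have hu2 := Set.ncard_union_le {y | F.Arc c y} {y | F.Arc y c}
  rw [Set.ncard_singleton] at hu1
  have e1 : {y | F.Arc c y}.ncard = Nat.card {y // F.Arc c y} := rfl
  have e2 : {y | F.Arc y c}.ncard = Nat.card {x // F.Arc x c} := rfl
  have r1 : Nat.card {x // (K7.H12.FI.rev F).Arc x c} = Nat.card {y // F.Arc c y} := rfl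
  have r2 : Nat.card {y // (K7.H12.FI.rev F).Arc c y} = Nat.card {x // F.Arc x c} := rfl
  rcases Nat.eq_zero_or_pos (Nat.card {x // F.Arc x c}) with hp | hp
  · exact has_out F hF c hc' hp (by omega)
  rcases Nat.eq_zero_or_pos (Nat.card {y // F.Arc c y}) with hq | hq
  · exact ev_rev (has_out _ hFr c hcr (by rw [r1, hq]) (by rw [r2]; omega))
  by_cases h11 : Nat.card {x // F.Arc x c} = 1 ∧ Nat.card {y // F.Arc c y} = 1
  · exact has_path F hF c hc' h11.1 h11.2
  rcases Nat.le_total (Nat.card {y // F.Arc c y}) (Nat.card {x // F.Arc x c}) with h | h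
  · exact has_two F hF c hc' (by omega) hq h
  · exact ev_rev (has_two _ hFr c hcr (by rw [r1]; omega) (by rw [r2]; omega)
      (by rw [r1, r2]; exact h))

theorem hc_congr {X V W : Type} (F : OrientedGraph X) {G : OrientedGraph V} {H : OrientedGraph W}
    (e : V ≃ W) (h : ∀ a b, G.Arc a b ↔ H.Arc (e a) (e b)) (v : V) :
    hc F H (e v) = hc F G v := by
  unfold hc
  have hinj : Function.Injective (fun (φ : X → V) => (fun x => e (φ x))) := by
    intro φ ψ he
    funext x
    exact e.injective (congrFun he x)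
  rw [← Set.ncard_image_of_injective _ hinj]
  congr 1
  ext φ
  constructor
  · rintro ⟨h1, h2, ⟨x0, h3⟩⟩
    refine ⟨fun x => e.symm (φ x), ⟨?_, ?_, ⟨x0, ?_⟩⟩, ?_⟩
    · intro x y hxy
      exact h1 (e.symm.injective hxy)
    · intro x y hxy
      rw [h, Equiv.apply_symm_apply, Equiv.apply_symm_apply]
      exact h2 x y hxy
    · show e.symm (φ x0) = v
      rw [h3, Equiv.symm_apply_apply]
    · funext x
      exact e.apply_symm_apply _
  · rintro ⟨ψ, ⟨h1, h2, ⟨x0, h3⟩⟩, rfl⟩
    refine ⟨?_, ?_, ⟨x0, ?_⟩⟩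
    · intro x y hxy
      exact h1 (e.injective hxy)
    · intro x y hxy
      exact (h _ _).1 (h2 x y hxy)
    · show e (ψ x0) = e v
      rw [h3]

/-- a graph with `n` vertices, `m` of which have at most `U` copies -/
def HasT {X : Type} (F : OrientedGraph X) (n U m : ℕ) : Prop :=
  ∃ G : OrientedGraph (Fin n), Function.Injective (hc F G) ∧ Nat.card {v // hc F G v ≤ U} = m

theorem hasT_of {X V : Type} [Finite V] {F : OrientedGraph X} {G : OrientedGraph V} {n U m : ℕ}
    (h1 : Nat.card V = n) (h2 : Function.Injective (hc F G))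
    (h3 : Nat.card {v // hc F G v ≤ U} = m) : HasT F n U m := by
  let e : V ≃ Fin n := Finite.equivFinOfCardEq h1
  let G' : OrientedGraph (Fin n) :=
    { Arc := fun a b => G.Arc (e.symm a) (e.symm b)
      asymm := fun _ _ h h' => G.asymm _ _ h h' }
  have hG : ∀ a b, G.Arc a b ↔ G'.Arc (e a) (e b) := by
    intro a b
    show G.Arc a b ↔ G.Arc (e.symm (e a)) (e.symm (e b))
    rw [Equiv.symm_apply_apply, Equiv.symm_apply_apply]
  have hv : ∀ v, hc F G' (e v) = hc F G v := hc_congr F e hG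
  refine ⟨G', ?_, ?_⟩
  · intro a b hab
    have h4 := hv (e.symm a)
    have h5 := hv (e.symm b)
    rw [Equiv.apply_symm_apply] at h4 h5
    rw [h4, h5] at hab
    exact e.symm.injective (h2 hab)
  · rw [← h3]
    refine (Nat.card_congr (e.subtypeEquiv fun v => ?_)).symm
    rw [hv]

theorem hasT_add {X : Type} {F : OrientedGraph X} (hF : F.WeaklyConnected) {m : ℕ}
    (hm : Has F m) : ∃ U0, ∀ U n, U0 ≤ U → HasG F n U → HasT F (n + m) U m := by
  classical
  obtain ⟨W, hW, H, h1, h2⟩ := hm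
  have := Fintype.ofFinite W
  refine ⟨∑ w, hc F H w, ?_⟩
  rintro U n hU ⟨V, hV, G, g1, g2, g3⟩
  have hle : ∀ w, hc F H w ≤ U := fun w =>
    (Finset.single_le_sum (f := fun w => hc F H w) (fun _ _ => Nat.zero_le _)
      (Finset.mem_univ w)).trans hU
  refine hasT_of (G := dsum G H) ?_ ?_ ?_
  · rw [Nat.card_sum, g1, h1]
  · rintro (v | v) (w | w) he
    · rw [hc_inl F G H hF, hc_inl F G H hF] at he
      rw [g2 he]
    · rw [hc_inl F G H hF, hc_inr F G H hF] at he
      have := g3 v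
      have := hle w
      omega
    · rw [hc_inl F G H hF, hc_inr F G H hF] at he
      have := g3 w
      have := hle v
      omega
    · rw [hc_inr F G H hF, hc_inr F G H hF] at he
      rw [h2 he]
  · rw [← h1]
    refine (Nat.card_eq_of_bijective (fun w : W => (⟨Sum.inr w, by
      rw [hc_inr F G H hF]
      exact hle w⟩ : {v // hc F (dsum G H) v ≤ U})) ⟨?_, ?_⟩).symm
    · intro w w' hw
      exact Sum.inr_injective (congrArg Subtype.val hw)
    · rintro ⟨v | w, hv⟩
      · exfalso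
        rw [hc_inl F G H hF] at hv
        have := g3 v
        omega
      · exact ⟨w, rfl⟩

/-- The main theorem for patterns on a type in the lowest universe. -/
theorem many {X : Type} [Finite X] (F : OrientedGraph X) (hF : F.WeaklyConnected)
    (h3 : 3 ≤ Nat.card X) (K : ℕ) : ∃ n0, ∀ n, n0 ≤ n →
      ∃ G : Fin K → OrientedGraph (Fin n), (∀ i, Irregular F (G i)) ∧
        ∀ i j, i ≠ j → ¬ ∃ e : Fin n ≃ Fin n, ∀ a b, (G i).Arc a b ↔ (G j).Arc (e a) (e b) := by
  classical
  obtain ⟨k, hk⟩ := ev_F F hF h3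
  obtain ⟨N, hN⟩ := hk 0
  have hh : ∀ (j : ℕ) (ε : Fin 2), Has F (2 * (N + j) + k + ε) := by
    intro j ε
    have h := hN (N + j) (by omega)
    fin_cases ε
    · exact h.has
    · exact has_succ hF (by omega) h
  have hU : ∀ (j : ℕ) (ε : Fin 2), ∃ U0, ∀ U n, U0 ≤ U → HasG F n U →
      HasT F (n + (2 * (N + j) + k + ε)) U (2 * (N + j) + k + ε) :=
    fun j ε => hasT_add hF (hh j ε)
  choose U0 hU0 using hU
  set U := ∑ j : Fin K, ∑ ε : Fin 2, U0 j ε with hUdef
  have hle : ∀ (j : Fin K) (ε : Fin 2), U0 j ε ≤ U := by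
    intro j ε
    have h4 : U0 j ε ≤ ∑ ε : Fin 2, U0 j ε :=
      Finset.single_le_sum (f := fun ε => U0 j ε) (fun _ _ => Nat.zero_le _) (Finset.mem_univ ε)
    have h5 : ∑ ε : Fin 2, U0 j ε ≤ U :=
      Finset.single_le_sum (f := fun j : Fin K => ∑ ε : Fin 2, U0 j ε)
        (fun _ _ => Nat.zero_le _) (Finset.mem_univ j)
    exact h4.trans h5
  obtain ⟨N', hN'⟩ := hk U
  refine ⟨2 * N' + k + (2 * (N + K) + k + 1), fun n hn => ?_⟩
  obtain ⟨ε, hε⟩ : ∃ ε : Fin 2, (ε : ℕ) = n % 2 := ⟨⟨n % 2, Nat.mod_lt _ (by norm_num)⟩, rfl⟩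
  have hT : ∀ j : Fin K, HasT F n U (2 * (N + j) + k + ε) := by
    intro j
    have hj := j.2
    obtain ⟨n', hn'⟩ : ∃ n', n = (2 * n' + k) + (2 * (N + j) + k + ε) :=
      ⟨(n - ε) / 2 - k - (N + j), by omega⟩
    have h6 := hU0 j ε U (2 * n' + k) (hle j ε) (hN' n' (by omega))
    rwa [← hn'] at h6
  choose G hG1 hG2 using hT
  refine ⟨G, fun i => irregular_of_hc F (G i) (hG1 i), ?_⟩
  rintro i j hij ⟨e, he⟩
  apply hij
  have h7 : Nat.card {v // hc F (G i) v ≤ U} = Nat.card {v // hc F (G j) v ≤ U} := by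
    refine Nat.card_congr (e.subtypeEquiv fun v => ?_)
    rw [hc_congr F e he]
  rw [hG2, hG2] at h7
  exact Fin.ext (by omega)

/-- The main theorem. -/
theorem main {X : Type u} [Fintype X] (F : OrientedGraph X) (hF : F.WeaklyConnected)
    (h3 : 3 ≤ Fintype.card X) (K : ℕ) : ∃ n0, ∀ n, n0 ≤ n →
      ∃ G : Fin K → OrientedGraph (Fin n), (∀ i, Irregular F (G i)) ∧
        ∀ i j, i ≠ j → ¬ ∃ e : Fin n ≃ Fin n, ∀ a b, (G i).Arc a b ↔ (G j).Arc (e a) (e b) := by
  classical
  let e := Fintype.equivFin X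
  let F' : OrientedGraph (Fin (Fintype.card X)) :=
    { Arc := fun a b => F.Arc (e.symm a) (e.symm b)
      asymm := fun _ _ h h' => F.asymm _ _ h h' }
  have hiso : ∀ x y, F.Arc x y ↔ F'.Arc (e x) (e y) := by
    intro x y
    show F.Arc x y ↔ F.Arc (e.symm (e x)) (e.symm (e y))
    rw [Equiv.symm_apply_apply, Equiv.symm_apply_apply]
  have hF' : F'.WeaklyConnected := by
    let i : F.underlying ≃g F'.underlying :=
      { toEquiv := e
        map_rel_iff' := by
          intro a b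
          exact (or_congr (hiso a b) (hiso b a)).symm }
    exact (SimpleGraph.Iso.connected_iff i).1 hF
  obtain ⟨n0, h0⟩ := many F' hF' (by rw [Nat.card_fin]; exact h3) K
  refine ⟨n0, fun n hn => ?_⟩
  obtain ⟨G, hG1, hG2⟩ := h0 n hn
  refine ⟨G, fun i => ?_, hG2⟩
  refine irregular_congr (Equiv.refl _) e.symm (fun _ _ => Iff.rfl) ?_ (hG1 i)
  intro x y
  rw [hiso, Equiv.apply_symm_apply, Equiv.apply_symm_apply]

end Pool.Agent.H81.FI
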