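import Pool.Agent.H81.FI.Res

/-!
# Patterns that are not stars
-/

set_option autoImplicit false

namespace Pool.Agent.H81.FI

open Pool.Agent.K7.H15.Irr Pool.Agent.K7.H12.FI

theorem inj_ns (X : Type) [Finite X] (F : OrientedGraph X) (hF : F.WeaklyConnected)
    (h3 : 3 ≤ Nat.card X) (hns : ∀ c : X, ∃ x y, F.Arc x y ∧ x ≠ c ∧ y ≠ c) :
    ∃ A : ℕ, ∃ c : ℝ, 0 < c ∧ ∀ (P : K7.H12.FI.Par X) (h : IsHom F F P.ρ) (a B : ℕ) (x : X → ℕ),
      Ok F P h A a B x →
      (∀ f : X → X, IsHom F F f → (Set.range P.ρ).ncard ≤ (Set.range f).ncard) →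
      (∀ v, c * err X (Vt P) 1 ≤ D F (gph F P h) v) ∧
      ∀ v v' : Vt P, v ≠ v' → D F (gph F P h) v ≠ D F (gph F P h) v' := by
  obtain ⟨A1, h1⟩ := stRow X F hF h3
  obtain ⟨A2, h2⟩ := stCol X F hF h3 hns
  obtain ⟨A3, h3'⟩ := stW X F hF h3
  obtain ⟨A4, h4⟩ := stT X F hF h3
  obtain ⟨A5, h5⟩ := stWB X F hF h3
  obtain ⟨A6, h6⟩ := stTW X F hF h3
  obtain ⟨A7, h7⟩ := stCross X F hF h3
  obtain ⟨c, hc0, A8, h8⟩ := stLB0 X F hF h3
  refine ⟨A1 + A2 + A3 + A4 + A5 + A6 + A7 + A8, c, hc0, ?_⟩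
  intro P h a B x hok hmin
  refine ⟨h8 P h a B x (hok.mono (by omega)), ?_⟩
  have e1 := h1 P h a B x (hok.mono (by omega))
  have e2 := h2 P h a B x (hok.mono (by omega))
  have e3 := h3' P h a B x (hok.mono (by omega))
  have e4 := h4 P h a B x (hok.mono (by omega))
  have e5 := h5 P h a B x (hok.mono (by omega))
  have e6 := h6 P h a B x (hok.mono (by omega))
  have e7 := h7 P h a B x (hok.mono (by omega)) hmin
  intro v v' hvv hD
  by_cases hcl : cl v = cl v'
  swap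
  · exact e7 v v' hcl hD
  obtain ⟨g, s⟩ := v
  obtain ⟨g', s'⟩ := v'
  have hg : g = g' := Subtype.ext hcl
  subst hg
  rcases s with ⟨i, j⟩ | ⟨c, l⟩ | j <;> rcases s' with ⟨i', j'⟩ | ⟨c', l'⟩ | j'
  · -- bulk, bulk
    have hD' : D F (gph F P h) (bk g i j) = D F (gph F P h) (bk g i' j') := hD
    rcases lt_trichotomy i i' with hi | hi | hi
    · exact absurd hD' (e1 g i i' j j' hi).ne'
    · subst hi
      rcases lt_trichotomy j j' with hj | hj | hj
      · have hj1 : (j : ℕ) < (j' : ℕ) := hj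
        exact absurd hD' (col_mono g i (fun a b hab => e2 g i a b hab) ((j' : ℕ) - j - 1) j j'
          (by omega)).ne
      · subst hj; exact hvv rfl
      · have hj1 : (j' : ℕ) < (j : ℕ) := hj
        exact absurd hD' (col_mono g i (fun a b hab => e2 g i a b hab) ((j : ℕ) - j' - 1) j' j
          (by omega)).ne'
    · exact absurd hD' (e1 g i' i j' j hi).ne
  · -- bulk, t
    exact absurd hD ((e6 g c' l' j).trans (e5 g i j j)).ne'
  · exact absurd hD (e5 g i j j').ne'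
  · exact absurd hD ((e6 g c l j').trans (e5 g i' j' j')).ne
  · -- t, t
    have hD' : D F (gph F P h) (tt g c l) = D F (gph F P h) (tt g c' l') := hD
    rcases lt_trichotomy l l' with hi | hi | hi
    · exact absurd hD' (e4 g c c' l l' (Or.inl hi)).ne
    · subst hi
      rcases lt_trichotomy c c' with hj | hj | hj
      · exact absurd hD' (e4 g c' c l l (Or.inr ⟨rfl, hj⟩)).ne'
      · subst hj; exact hvv rfl
      · exact absurd hD' (e4 g c c' l l (Or.inr ⟨rfl, hj⟩)).ne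
    · exact absurd hD' (e4 g c' c l' l (Or.inl hi)).ne'
  · exact absurd hD (e6 g c l j').ne
  · exact absurd hD (e5 g i' j' j).ne
  · exact absurd hD (e6 g c' l' j).ne'
  · have hD' : D F (gph F P h) (ww g j) = D F (gph F P h) (ww g j') := hD
    rcases lt_trichotomy j j' with hj | hj | hj
    · exact absurd hD' (e3 g j j' hj).ne'
    · subst hj; exact hvv rfl
    · exact absurd hD' (e3 g j' j hj).ne


theorem hasG_of {X : Type} [Finite X] {F : OrientedGraph X} (h3 : 3 ≤ Nat.card X) {P : K7.H12.FI.Par X}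
    {h : IsHom F F P.ρ} {c : ℝ} (hc0 : 0 < c)
    (h1 : ∀ v, c * err X (Vt P) 1 ≤ D F (gph F P h) v)
    (h2 : ∀ v v' : Vt P, v ≠ v' → D F (gph F P h) v ≠ D F (gph F P h) v') {n L : ℕ}
    (hn : Nat.card (Vt P) = n) (hL : (L : ℝ) < c * n) (hn1 : 1 ≤ n) : HasG F n L := by
  refine ⟨Vt P, inferInstance, gph F P h, hn, ?_, ?_⟩
  · intro v v' he
    by_contra hne
    refine h2 v v' hne ?_
    show ((homs F (gph F P h) (fun φ => v ∈ Set.range φ)).ncard : ℝ) / _ =
      ((homs F (gph F P h) (fun φ => v' ∈ Set.range φ)).ncard : ℝ) / _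
    have he' : (homs F (gph F P h) (fun φ => v ∈ Set.range φ)).ncard =
      (homs F (gph F P h) (fun φ => v' ∈ Set.range φ)).ncard := he
    rw [he']
  · intro v
    have e := h1 v
    have e' : c * ((Nat.card X : ℝ) / (Nat.card (Vt P) : ℝ)) ^ 1 ≤
      (hc F (gph F P h) v : ℝ) / (Nat.card (Vt P) : ℝ) ^ (Nat.card X) := e
    rw [hn, pow_one] at e'
    have hnr : (1 : ℝ) ≤ n := by exact_mod_cast hn1
    have hkr : (3 : ℝ) ≤ Nat.card X := by exact_mod_cast h3
    have hn0 : (0 : ℝ) < n := by linarith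
    rw [le_div_iff₀ (by positivity)] at e'
    obtain ⟨k, hk⟩ : ∃ k, Nat.card X = k + 2 := ⟨Nat.card X - 2, by omega⟩
    have h5 : c * n ≤ c * ((Nat.card X : ℝ) / n) * (n : ℝ) ^ (Nat.card X) := by
      have h6 : ((n : ℝ)) ^ (Nat.card X) = n * (n * (n : ℝ) ^ k) := by
        rw [hk, pow_add]
        ring
      have h7 : c * ((Nat.card X : ℝ) / n) * (n : ℝ) ^ (Nat.card X) =
          (c * n) * (Nat.card X * (n : ℝ) ^ k) := by
        rw [h6]
        field_simp
      rw [h7]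
      have h8 : (1 : ℝ) ≤ (n : ℝ) ^ k := one_le_pow₀ hnr
      have h9 : (1 : ℝ) ≤ Nat.card X * (n : ℝ) ^ k := by nlinarith
      have h10 : 0 < c * n := by positivity
      nlinarith
    have h6 : (L : ℝ) < (hc F (gph F P h) v : ℝ) := by linarith
    exact_mod_cast h6

theorem SS_four (B t : ℕ) : SS B (4 * t) = 4 * t * B + (8 * t ^ 2 - 2 * t) := by
  have h : SS B (4 * t) + 2 * t = 4 * t * B + 8 * t ^ 2 := by
    induction t with
    | zero => simp [SS_zero]
    | succ t ih =>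
      have h : 4 * (t + 1) = 4 * t + 1 + 1 + 1 + 1 := by ring
      rw [h, SS_succ, SS_succ, SS_succ, SS_succ]
      nlinarith
  have h2 : 2 * t ≤ 8 * t ^ 2 := by
    rcases Nat.eq_zero_or_pos t with rfl | ht
    · simp
    · nlinarith
  omega

open Classical in
/-- the largest multiplier of an adjacent class -/
noncomputable def yy {X : Type} [Fintype X] (F : OrientedGraph X) (ρ : X → X) (h : IsHom F F ρ)
    (x : X → ℕ) (g : X) : ℕ :=
  (Finset.univ.filter fun g' => (img F ρ h).underlying.Adj g g').sup x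

/-- the parameters -/
noncomputable def mk {X : Type} [Fintype X] (F : OrientedGraph X) (ρ : X → X) (h : IsHom F F ρ)
    (x : X → ℕ) (a t B : ℕ) : K7.H12.FI.Par X :=
  ⟨ρ, fun g => x g * a, fun g => yy F ρ h x g * a, SS B (4 * t), 4 * t, bl B (4 * t)⟩

theorem ok_mk {X : Type} [Fintype X] (F : OrientedGraph X) (hF : F.WeaklyConnected)
    (h3 : 3 ≤ Nat.card X) (ρ : X → X) (hρ : IsHom F F ρ) (x : X → ℕ) {A a t B : ℕ}
    (hx : ∀ g, 1 ≤ x g ∧ x g ≤ xb X)
    (hra : ∀ g g' : X, g ∈ Set.range ρ → g' ∈ Set.range ρ → g ≠ g' →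
      16 * Nat.card X * x g ≤ x g' ∨ 16 * Nat.card X * x g' ≤ x g)
    (ha : A ≤ a) (hb : A * a ^ 2 ≤ 4 * t) (hB : A * a * (4 * t) ≤ B) :
    Ok F (mk F ρ hρ x a t B) hρ A a B x := by
  classical
  have hnt : Nontrivial X := by
    rw [← Finite.one_lt_card_iff_nontrivial]
    omega
  have hadjr : ∀ g g' : X, (img F ρ hρ).underlying.Adj g g' → g' ∈ Set.range ρ := by
    rintro g g' (⟨y, z, _, _, h⟩ | ⟨y, z, _, h, _⟩)
    · exact ⟨z, h⟩
    · exact ⟨y, h⟩
  refine ⟨fun g => hx g.1, fun g => rfl, ?_, ?_, ?_, ?_, ?_, ?_, ?_, ha, hb, hB⟩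
  · intro g g' hgg
    exact hra g.1 g'.1 g.2 g'.2 (fun h => hgg (Subtype.ext h))
  · intro g g' h
    refine Nat.mul_le_mul_right a ?_
    exact Finset.le_sup (f := x) (Finset.mem_filter.2 ⟨Finset.mem_univ _, h⟩)
  · intro g
    have hne : (Finset.univ.filter fun g' => (img F ρ hρ).underlying.Adj g.1 g').Nonempty := by
      obtain ⟨y, hy⟩ := g.2
      obtain ⟨z, hz⟩ := hF.preconnected.exists_adj_of_nontrivial y
      refine ⟨ρ z, Finset.mem_filter.2 ⟨Finset.mem_univ _, ?_⟩⟩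
      rcases hz with hz | hz
      · exact Or.inl ⟨y, z, hz, hy, rfl⟩
      · exact Or.inr ⟨z, y, hz, rfl, hy⟩
    obtain ⟨g', hg', hs⟩ := Finset.exists_mem_eq_sup _ hne x
    have hadj := (Finset.mem_filter.1 hg').2
    refine ⟨⟨g', hadjr _ _ hadj⟩, hadj, ?_⟩
    show x g' * a = yy F ρ hρ x g.1 * a
    unfold yy
    rw [hs]
  · intro j hj
    exact (bl_spec B (4 * t) j hj).2.2
  · intro j hj
    have hj' : j < SS B (4 * t) := lt_trans (Nat.lt_succ_self j) hj
    obtain ⟨e1, e2, e3⟩ := bl_spec B (4 * t) j hj'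
    rcases Nat.lt_or_ge (j + 1) (SS B (bl B (4 * t) j + 1)) with h | h
    · left
      exact bl_eq B (4 * t) (j + 1) (bl B (4 * t) j) hj (le_trans e1 (Nat.le_succ j)) h
    · right
      refine bl_eq B (4 * t) (j + 1) _ hj h ?_
      show j + 1 < SS B (bl B (4 * t) j + 1 + 1)
      rw [SS_succ B (bl B (4 * t) j + 1)]
      omega
  · intro c hc
    have hset : {j : ℕ | j < SS B (4 * t) ∧ bl B (4 * t) j = c} =
        ↑(Finset.Ico (SS B c) (SS B (c + 1))) := by
      ext j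
      rw [Finset.coe_Ico, Set.mem_Ico]
      constructor
      · rintro ⟨h1, rfl⟩
        obtain ⟨e1, e2, _⟩ := bl_spec B (4 * t) j h1
        exact ⟨e1, e2⟩
      · rintro ⟨h1, h2⟩
        have h4 : j < SS B (4 * t) := lt_of_lt_of_le h2 (SS_mono B hc)
        exact ⟨h4, bl_eq B (4 * t) j c h4 h1 h2⟩
    show {j : ℕ | j < SS B (4 * t) ∧ bl B (4 * t) j = c}.ncard = B + c
    rw [hset, Set.ncard_coe_finset, Nat.card_Ico, SS_succ]
    omega
  · exact SS_even B t

open Classical in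
theorem card_mk {X : Type} [Fintype X] (F : OrientedGraph X) (ρ : X → X) (h : IsHom F F ρ)
    (x : X → ℕ) (a t B : ℕ) : Nat.card (Vt (mk F ρ h x a t B)) =
      Nn (∑ g : {g : X // g ∈ Set.range ρ}, x g.1) (∑ g : {g : X // g ∈ Set.range ρ},
        yy F ρ h x g.1) (Fintype.card {g : X // g ∈ Set.range ρ}) a t B := by
  have h1 : Nat.card (Vt (mk F ρ h x a t B)) = ∑ g : {g : X // g ∈ Set.range ρ},
      Nat.card ((Fin (x g.1 * a) × Fin (SS B (4 * t))) ⊕
        ((Fin (4 * t) × Fin (yy F ρ h x g.1 * a)) ⊕ Fin (SS B (4 * t)))) :=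
    Nat.card_sigma
  rw [h1]
  simp only [Nat.card_sum, Nat.card_prod, Nat.card_fin]
  unfold Nn
  rw [← SS_four, Finset.sum_add_distrib, Finset.sum_add_distrib, Finset.sum_const,
    Finset.card_univ, smul_eq_mul, ← Finset.sum_mul, ← Finset.sum_mul, ← Finset.mul_sum,
    ← Finset.sum_mul]
  ring

theorem has_ns {X : Type} [Finite X] (F : OrientedGraph X) (hF : F.WeaklyConnected)
    (h3 : 3 ≤ Nat.card X) (hns : ∀ c : X, ∃ x y, F.Arc x y ∧ x ≠ c ∧ y ≠ c) :
    EV F := by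
  classical
  have := Fintype.ofFinite X
  obtain ⟨A, c, hc0, hA⟩ := inj_ns X F hF h3 hns
  obtain ⟨ρ, hρ, hmin⟩ := exists_min_end F
  have hnt : Nontrivial X := by
    rw [← Finite.one_lt_card_iff_nontrivial]
    omega
  have hcard : Nat.card X = Fintype.card X := Nat.card_eq_fintype_card
  let e := Fintype.equivFin X
  let x : X → ℕ := fun g => (16 * Nat.card X) ^ ((e g : Fin _) : ℕ)
  have h16 : 1 ≤ 16 * Nat.card X := by omega
  obtain ⟨z⟩ : Nonempty X := inferInstance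
  have hne : (Finset.univ.filter fun g : X => g ∈ Set.range ρ).Nonempty :=
    ⟨ρ z, Finset.mem_filter.2 ⟨Finset.mem_univ _, z, rfl⟩⟩
  obtain ⟨g0, hg0, hmax⟩ := Finset.exists_max_image _ (fun g : X => ((e g : Fin _) : ℕ)) hne
  have hg0r : g0 ∈ Set.range ρ := (Finset.mem_filter.1 hg0).2
  have hmax' : ∀ g ∈ Set.range ρ, ((e g : Fin _) : ℕ) ≤ ((e g0 : Fin _) : ℕ) := fun g hg =>
    hmax g (Finset.mem_filter.2 ⟨Finset.mem_univ _, hg⟩)
  let x' : X → ℕ := fun g => x g + if g = g0 then 1 else 0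
  have hx1 : ∀ g, 1 ≤ x g := fun g => Nat.one_le_pow _ _ h16
  have hxk : ∀ g, 16 * Nat.card X * x g ≤ xb X := by
    intro g
    show 16 * Nat.card X * (16 * Nat.card X) ^ ((e g : Fin _) : ℕ) ≤
      (16 * Nat.card X) ^ Nat.card X
    rw [← pow_succ']
    refine Nat.pow_le_pow_right h16 ?_
    have h := (e g).2
    omega
  have key : ∀ i i' : ℕ, i < i' →
      16 * Nat.card X * (16 * Nat.card X) ^ i ≤ (16 * Nat.card X) ^ i' := by
    intro i i' h
    rw [← pow_succ']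
    exact Nat.pow_le_pow_right h16 h
  have hexp : ∀ g g' : X, g ≠ g' → ((e g : Fin _) : ℕ) < ((e g' : Fin _) : ℕ) ∨
      ((e g' : Fin _) : ℕ) < ((e g : Fin _) : ℕ) := by
    intro g g' hgg
    have hne : ((e g : Fin _) : ℕ) ≠ ((e g' : Fin _) : ℕ) := fun h =>
      hgg (e.injective (Fin.ext h))
    omega
  have fam : ∀ w : X → ℕ, (∀ g, 1 ≤ w g ∧ w g ≤ xb X) →
      (∀ g g' : X, g ∈ Set.range ρ → g' ∈ Set.range ρ → g ≠ g' →
        16 * Nat.card X * w g ≤ w g' ∨ 16 * Nat.card X * w g' ≤ w g) →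
      Fam F A (∑ g : {g : X // g ∈ Set.range ρ}, w g.1)
        (∑ g : {g : X // g ∈ Set.range ρ}, yy F ρ hρ w g.1)
        (Fintype.card {g : X // g ∈ Set.range ρ}) := by
    intro w hw hra a t ha hb ht L
    refine ⟨A * a * (4 * t) + ⌈(L : ℝ) / c⌉₊ + 1, fun B hB => ?_⟩
    obtain ⟨k1, k2⟩ := hA (mk F ρ hρ w a t B) hρ a B w
      (ok_mk F hF h3 ρ hρ w hw hra ha hb (by omega)) hmin
    have hs : 1 ≤ Fintype.card {g : X // g ∈ Set.range ρ} :=
      Fintype.card_pos_iff.2 ⟨⟨ρ z, z, rfl⟩⟩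
    have hBn : B ≤ Nn (∑ g : {g : X // g ∈ Set.range ρ}, w g.1)
        (∑ g : {g : X // g ∈ Set.range ρ}, yy F ρ hρ w g.1)
        (Fintype.card {g : X // g ∈ Set.range ρ}) a t B := by
      unfold Nn
      have e1 : B ≤ 4 * t * B := Nat.le_mul_of_pos_left B (by omega)
      have e2 : 4 * t * B ≤ 4 * t * B + (8 * t ^ 2 - 2 * t) := Nat.le_add_right _ _
      refine le_trans (e1.trans e2) (le_trans ?_ (Nat.le_add_right _ _))
      exact Nat.le_mul_of_pos_right _ (by omega)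
    refine hasG_of h3 hc0 k1 k2 (card_mk F ρ hρ w a t B) ?_ (by omega)
    have e3 : (L : ℝ) / c ≤ ⌈(L : ℝ) / c⌉₊ := Nat.le_ceil _
    have e4 : (⌈(L : ℝ) / c⌉₊ : ℝ) + 1 ≤ B := by
      have : ⌈(L : ℝ) / c⌉₊ + 1 ≤ B := by omega
      exact_mod_cast this
    have e5 : (B : ℝ) ≤ (Nn (∑ g : {g : X // g ∈ Set.range ρ}, w g.1)
        (∑ g : {g : X // g ∈ Set.range ρ}, yy F ρ hρ w g.1)
        (Fintype.card {g : X // g ∈ Set.range ρ}) a t B : ℕ) := by exact_mod_cast hBn
    rw [div_le_iff₀ hc0] at e3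
    nlinarith
  have f1 := fam x (fun g => ⟨hx1 g, by
    have := hxk g
    have h5 : x g ≤ 16 * Nat.card X * x g := Nat.le_mul_of_pos_left _ (by omega)
    omega⟩) (by
    intro g g' _ _ hgg
    rcases hexp g g' hgg with h | h
    · exact Or.inl (key _ _ h)
    · exact Or.inr (key _ _ h))
  have f2 := fam x' (fun g => ⟨by
    have := hx1 g
    show 1 ≤ x g + _
    omega, by
    have := hxk g
    have h1 := hx1 g
    have h5 : x g + 1 ≤ 16 * Nat.card X * x g := by nlinarith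
    show x g + (if g = g0 then 1 else 0) ≤ xb X
    split_ifs <;> omega⟩) (by
    intro g g' hg hg' hgg
    rcases hexp g g' hgg with h | h
    · left
      have hgne : g ≠ g0 := by
        rintro rfl
        have := hmax' g' hg'
        omega
      have e1 : 16 * Nat.card X * x g ≤ x g' := key _ _ h
      show 16 * Nat.card X * (x g + if g = g0 then 1 else 0) ≤ x g' + _
      rw [if_neg hgne, Nat.add_zero]
      exact e1.trans (Nat.le_add_right _ _)
    · right
      have hgne : g' ≠ g0 := by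
        rintro rfl
        have := hmax' g hg
        omega
      have e1 : 16 * Nat.card X * x g' ≤ x g := key _ _ h
      show 16 * Nat.card X * (x g' + if g' = g0 then 1 else 0) ≤ x g + _
      rw [if_neg hgne, Nat.add_zero]
      exact e1.trans (Nat.le_add_right _ _))
  have hsum : (∑ g : {g : X // g ∈ Set.range ρ}, x' g.1) =
      (∑ g : {g : X // g ∈ Set.range ρ}, x g.1) + 1 := by
    show (∑ g : {g : X // g ∈ Set.range ρ}, (x g.1 + if g.1 = g0 then 1 else 0)) = _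
    rw [Finset.sum_add_distrib]
    congr 1
    rw [Finset.sum_eq_single (⟨g0, hg0r⟩ : {g : X // g ∈ Set.range ρ})]
    · exact if_pos rfl
    · intro b _ hb
      exact if_neg (fun h => hb (Subtype.ext h))
    · intro h
      exact absurd (Finset.mem_univ _) h
  rw [hsum] at f2
  exact has_of_fam hF (Fintype.card_pos_iff.2 ⟨⟨ρ z, z, rfl⟩⟩) f1 f2

end Pool.Agent.H81.FI
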