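import Pool.Agent.H81.FI.Sum

/-!
# Residue classes
-/

set_option autoImplicit false

namespace Pool.Agent.H81.FI

open Pool.Agent.K7.H15.Irr Pool.Agent.K7.H12.FI

/-- every large number of the residue class `z` -/
def PP {X : Type} (F : OrientedGraph X) (D : ℕ) (z : ZMod D) : Prop :=
  ∀ L, ∃ N0, ∀ n : ℕ, N0 ≤ n → (n : ZMod D) = z → HasG F n L

/-- some number of the residue class `z` -/
def QQ {X : Type} (F : OrientedGraph X) (D : ℕ) (z : ZMod D) : Prop :=
  ∀ L, ∃ n : ℕ, (n : ZMod D) = z ∧ HasG F n L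

/-- all large numbers of one parity -/
def EV {X : Type} (F : OrientedGraph X) : Prop :=
  ∃ k, ∀ L, ∃ N, ∀ n, N ≤ n → HasG F (2 * n + k) L

section

variable {X : Type} {F : OrientedGraph X} {D : ℕ}

theorem pp_add (hF : F.WeaklyConnected) {z z' : ZMod D} (h : PP F D z) (h' : QQ F D z') :
    PP F D (z + z') := by
  intro L
  obtain ⟨m, hm1, hm2⟩ := h' L
  obtain ⟨U, hU⟩ := hasG_add hF hm2
  obtain ⟨N0, hN0⟩ := h U
  refine ⟨N0 + m, fun n hn hz => ?_⟩
  have h1 := hN0 (n - m) (by omega) (by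
    rw [Nat.cast_sub (by omega), hz, hm1, add_sub_cancel_right])
  have h2 := hU (n - m) h1
  rwa [Nat.sub_add_cancel (by omega)] at h2

theorem pp_shift (hF : F.WeaklyConnected) [NeZero D] :
    ∀ w ∈ AddSubgroup.closure {z : ZMod D | QQ F D z}, ∀ z, PP F D z → PP F D (z + w) := by
  intro w hw
  induction hw using AddSubgroup.closure_induction with
  | mem x hx => exact fun z hz => pp_add hF hz hx
  | zero =>
    intro z hz
    rwa [add_zero]
  | add x y _ _ hx hy =>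
    intro z hz
    rw [← add_assoc]
    exact hy _ (hx _ hz)
  | neg x _ hx =>
    have key : ∀ k : ℕ, ∀ z, PP F D z → PP F D (z + k • x) := by
      intro k
      induction k with
      | zero =>
        intro z hz
        rwa [zero_nsmul, add_zero]
      | succ k ih =>
        intro z hz
        rw [succ_nsmul, ← add_assoc]
        exact hx _ (ih _ hz)
    have h1 : (D - 1) • x = -x := by
      have hD : 0 < D := Nat.pos_of_ne_zero (NeZero.ne D)
      have h2 : (D - 1) • x + x = 0 := by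
        rw [← succ_nsmul, Nat.sub_add_cancel hD, nsmul_eq_mul, ZMod.natCast_self, zero_mul]
      exact eq_neg_of_add_eq_zero_left h2
    intro z hz
    rw [← h1]
    exact key _ z hz

theorem ev_all (hF : F.WeaklyConnected) [NeZero D]
    {z0 : ZMod D} (h0 : PP F D z0) (hq0 : QQ F D z0)
    (htwo : (2 : ZMod D) ∈ AddSubgroup.closure {z : ZMod D | QQ F D z}) : EV F := by
  classical
  have hz0 : z0 ∈ AddSubgroup.closure {z : ZMod D | QQ F D z} := AddSubgroup.subset_closure hq0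
  have hP0 : PP F D 0 := by
    have := pp_shift hF _ (neg_mem hz0) _ h0
    rwa [add_neg_cancel] at this
  refine ⟨0, fun L => ?_⟩
  have hP : ∀ z : ZMod D, ∃ N0, z ∈ AddSubgroup.closure {z : ZMod D | QQ F D z} →
      ∀ n : ℕ, N0 ≤ n → (n : ZMod D) = z → HasG F n L := by
    intro z
    by_cases hz : z ∈ AddSubgroup.closure {z : ZMod D | QQ F D z}
    · have h := pp_shift hF _ hz _ hP0
      rw [zero_add] at h
      obtain ⟨N0, hN0⟩ := h L
      exact ⟨N0, fun _ => hN0⟩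
    · exact ⟨0, fun h => absurd h hz⟩
  choose N hN using hP
  refine ⟨∑ z : ZMod D, N z, fun n hn => ?_⟩
  rw [Nat.add_zero]
  refine hN ((2 * n : ℕ) : ZMod D) ?_ _ (le_trans ?_ (show (∑ z : ZMod D, N z) ≤ 2 * n by omega))
    rfl
  · have : ((2 * n : ℕ) : ZMod D) = n • (2 : ZMod D) := by
      rw [nsmul_eq_mul]
      push_cast
      ring
    rw [this]
    exact AddSubgroup.nsmul_mem _ htwo n
  · exact Finset.single_le_sum (f := fun z => N z) (fun _ _ => Nat.zero_le _)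
      (Finset.mem_univ _)

end

/-- the orders -/
theorem arith (Γ : AddSubgroup ℤ) (A : ℕ) (X Y s : ℤ)
    (h : ∀ a t B : ℕ, A ≤ a → A * a ^ 2 ≤ 4 * t →
      ((4 * t * B + (8 * t ^ 2 - 2 * t)) * (a * X + s) + 4 * t * a * Y : ℤ) ∈ Γ) :
    4 * X ∈ Γ ∧ 4 * Y - 2 * X ∈ Γ := by
  have h1 : ∀ a t : ℕ, A ≤ a → A * a ^ 2 ≤ 4 * t → (4 * t * (a * X + s) : ℤ) ∈ Γ := by
    intro a t ha ht
    have e := Γ.sub_mem (h a t 1 ha ht) (h a t 0 ha ht)
    convert e using 1
    push_cast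
    ring
  have h2 : ∀ a : ℕ, A ≤ a → (4 * (a * X + s) : ℤ) ∈ Γ := by
    intro a ha
    have e := Γ.sub_mem (h1 a (A * a ^ 2 + 1) ha (by nlinarith))
      (h1 a (A * a ^ 2) ha (by nlinarith))
    convert e using 1
    push_cast
    ring
  have h3 : (4 * X : ℤ) ∈ Γ := by
    have e := Γ.sub_mem (h2 (A + 1) (by omega)) (h2 A le_rfl)
    convert e using 1
    push_cast
    ring
  have h4 : ∀ a t : ℕ, A ≤ a → A * a ^ 2 ≤ 4 * t →
      (-2 * t * (a * X + s) + 4 * t * a * Y : ℤ) ∈ Γ := by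
    intro a t ha ht
    have e := Γ.sub_mem (h a t 0 ha ht) (Γ.zsmul_mem (h2 a ha) (2 * (t : ℤ) ^ 2))
    convert e using 1
    rw [smul_eq_mul]
    push_cast
    ring
  have h5 : ∀ a : ℕ, A ≤ a → (-2 * (a * X + s) + 4 * a * Y : ℤ) ∈ Γ := by
    intro a ha
    have e := Γ.sub_mem (h4 a (A * a ^ 2 + 1) ha (by nlinarith))
      (h4 a (A * a ^ 2) ha (by nlinarith))
    convert e using 1
    push_cast
    ring
  refine ⟨h3, ?_⟩
  have e := Γ.sub_mem (h5 (A + 1) (by omega)) (h5 A le_rfl)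
  convert e using 1
  push_cast
  ring

theorem arith_two (Γ : AddSubgroup ℤ) (X Y Y' : ℤ) (h1 : 4 * X ∈ Γ) (h2 : 4 * Y - 2 * X ∈ Γ)
    (h3 : 4 * (X + 1) ∈ Γ) (h4 : 4 * Y' - 2 * (X + 1) ∈ Γ) : (2 : ℤ) ∈ Γ := by
  have e4 : (4 : ℤ) ∈ Γ := by
    have := Γ.sub_mem h3 h1
    convert this using 1
    ring
  have e1 : (2 * X : ℤ) ∈ Γ := by
    have := Γ.sub_mem (Γ.zsmul_mem e4 Y) h2
    convert this using 1
    rw [smul_eq_mul]
    ring
  have e2 : (2 * (X + 1) : ℤ) ∈ Γ := by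
    have := Γ.sub_mem (Γ.zsmul_mem e4 Y') h4
    convert this using 1
    rw [smul_eq_mul]
    ring
  have := Γ.sub_mem e2 e1
  convert this using 1
  ring

/-- the order of the graph with the parameters `a`, `4 t`, `B` -/
def Nn (X Y s a t B : ℕ) : ℕ := (4 * t * B + (8 * t ^ 2 - 2 * t)) * (a * X + s) + 4 * t * a * Y

/-- a family of graphs -/
def Fam {Z : Type} (F : OrientedGraph Z) (A X Y s : ℕ) : Prop :=
  ∀ a t, A ≤ a → A * a ^ 2 ≤ 4 * t → 1 ≤ t → ∀ L, ∃ B0, ∀ B, B0 ≤ B →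
    HasG F (Nn X Y s a t B) L

theorem has_of_fam {Z : Type} {F : OrientedGraph Z} (hF : F.WeaklyConnected)
    {A X Y Y' s : ℕ} (hs : 1 ≤ s) (h : Fam F A X Y s)
    (h' : Fam F A (X + 1) Y' s) : EV F := by
  classical
  have hmul : ∀ t : ℕ, 2 * t ≤ 8 * t ^ 2 := by
    intro t
    rcases Nat.eq_zero_or_pos t with rfl | ht
    · simp
    · nlinarith
  have hcast : ∀ X Y s a t B : ℕ, ((Nn X Y s a t B : ℕ) : ℤ) =
      (4 * t * B + (8 * t ^ 2 - 2 * t)) * (a * X + s) + 4 * t * a * Y := by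
    intro X Y s a t B
    unfold Nn
    push_cast [Nat.cast_sub (hmul t)]
    ring
  set t0 := A * A ^ 2 + 1 with ht0
  set D := 4 * t0 * (A * X + s) with hD
  have hDpos : 0 < D := by positivity
  have : NeZero D := ⟨hDpos.ne'⟩
  have hstep : ∀ X Y s a t B, Nn X Y s a t B = Nn X Y s a t 0 + 4 * t * (a * X + s) * B := by
    intro X Y s a t B
    unfold Nn
    ring
  have hqq : ∀ X Y s, Fam F A X Y s → ∀ a t B : ℕ, A ≤ a → A * a ^ 2 ≤ 4 * t → 1 ≤ t →
      QQ F D ((Nn X Y s a t B : ℕ) : ZMod D) := by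
    intro X Y s hf a t B ha ht ht1 L
    obtain ⟨B0, hB0⟩ := hf a t ha ht ht1 L
    refine ⟨Nn X Y s a t (B + D * B0), ?_, hB0 _ ?_⟩
    · rw [hstep, hstep X Y s a t B]
      push_cast
      rw [ZMod.natCast_self]
      ring
    · have := Nat.le_mul_of_pos_left B0 hDpos
      omega
  have hΓ : ∀ X Y s, Fam F A X Y s → ∀ a t B : ℕ, A ≤ a → A * a ^ 2 ≤ 4 * t →
      ((4 * t * B + (8 * t ^ 2 - 2 * t)) * (a * X + s) + 4 * t * a * Y : ℤ) ∈
        (AddSubgroup.closure {z : ZMod D | QQ F D z}).comap (Int.castAddHom (ZMod D)) := by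
    intro X Y s hf a t B ha ht
    rcases Nat.eq_zero_or_pos t with rfl | ht1
    · have : ((4 * (0 : ℕ) * B + (8 * (0 : ℕ) ^ 2 - 2 * (0 : ℕ))) * (a * X + s) +
          4 * (0 : ℕ) * a * Y : ℤ) = 0 := by push_cast; ring
      rw [this]
      exact zero_mem _
    · rw [← hcast, AddSubgroup.mem_comap]
      have : ((Nn X Y s a t B : ℕ) : ZMod D) ∈ AddSubgroup.closure {z : ZMod D | QQ F D z} :=
        AddSubgroup.subset_closure (show ((Nn X Y s a t B : ℕ) : ZMod D) ∈ {z : ZMod D | QQ F D z}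
          from hqq X Y s hf a t B ha ht ht1)
      simpa using this
  obtain ⟨k1, k2⟩ := arith _ A X Y s (hΓ X Y s h)
  obtain ⟨k3, k4⟩ := arith _ A ((X + 1 : ℕ) : ℤ) Y' s (hΓ (X + 1) Y' s h')
  push_cast at k3 k4
  have h2 := arith_two _ X Y Y' k1 k2 k3 k4
  rw [AddSubgroup.mem_comap] at h2
  have h2' : (2 : ZMod D) ∈ AddSubgroup.closure {z : ZMod D | QQ F D z} := by simpa using h2
  have ht0' : A * A ^ 2 ≤ 4 * t0 := by omega
  refine ev_all hF (z0 := ((Nn X Y s A t0 0 : ℕ) : ZMod D)) ?_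
    (hqq X Y s h A t0 0 le_rfl ht0' (by omega)) h2'
  intro L
  obtain ⟨B0, hB0⟩ := h A t0 le_rfl ht0' (by omega) L
  refine ⟨Nn X Y s A t0 B0, fun n hn hz => ?_⟩
  have hle : Nn X Y s A t0 0 ≤ n := by
    rw [hstep] at hn
    exact le_trans (Nat.le_add_right _ _) hn
  rw [ZMod.natCast_eq_natCast_iff] at hz
  have hdvd : D ∣ n - Nn X Y s A t0 0 := (Nat.modEq_iff_dvd' hle).1 hz.symm
  obtain ⟨B, hB⟩ := hdvd
  have hn' : n = Nn X Y s A t0 B := by
    rw [hstep, ← hD, ← hB]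
    omega
  rw [hn'] at hn ⊢
  apply hB0
  rw [hstep X Y s A t0 B0, hstep X Y s A t0 B, ← hD] at hn
  have h5 : D * B0 ≤ D * B := by omega
  exact Nat.le_of_mul_le_mul_left h5 hDpos

end Pool.Agent.H81.FI
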