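import Pool.Agent.H81.FI.Res

/-!
# Stars
-/

set_option autoImplicit false

namespace Pool.Agent.H81.FI

open Finset Pool.Agent.K7.H15.Irr Pool.Agent.K7.H12.FI Pool.Agent.K7.H62.FI

section Hom

variable {X V : Type} (F : OrientedGraph X) (G : OrientedGraph V)

/-- the homomorphisms that have the centre at `s` -/
abbrev FibT (c : X) (s : V) : Type :=
  {φ : X → V // (Function.Injective φ ∧ IsHom F G φ) ∧ φ c = s}

theorem card_fibT [Finite X] [Finite V] (hF : F.WeaklyConnected) {c : X}
    (hc : ∀ x y, F.Arc x y → x = c ∨ y = c) (s : V) :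
    Nat.card (FibT F G c s) =
      (Nat.card {a // G.Arc a s}).descFactorial (Nat.card {x // F.Arc x c}) *
      (Nat.card {b // G.Arc s b}).descFactorial (Nat.card {y // F.Arc c y}) := by
  classical
  have := Fintype.ofFinite X
  have := Fintype.ofFinite V
  have e : Nat.card (FibT F G c s) = Nat.card
      (({x // F.Arc x c} ↪ {a // G.Arc a s}) ×
        ({y // F.Arc c y} ↪ {b // G.Arc s b})) := by
    refine Nat.card_eq_of_bijective (fun φ =>
      (⟨fun x => ⟨φ.1 x.1, ?_⟩, ?_⟩, ⟨fun y => ⟨φ.1 y.1, ?_⟩, ?_⟩)) ⟨?_, ?_⟩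
    · have h1 := φ.2.1.2 _ _ x.2
      rwa [φ.2.2] at h1
    · intro x x' h
      exact Subtype.ext (φ.2.1.1 (congrArg Subtype.val h))
    · have h1 := φ.2.1.2 _ _ y.2
      rwa [φ.2.2] at h1
    · intro x x' h
      exact Subtype.ext (φ.2.1.1 (congrArg Subtype.val h))
    · intro φ ψ h
      refine Subtype.ext (funext fun x => ?_)
      by_cases hx : x = c
      · rw [hx, φ.2.2, ψ.2.2]
      · rcases star_cases F hF hc hx with h1 | h1
        · have h2 := congrArg (fun e => (e.1 ⟨x, h1⟩).1) h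
          exact h2
        · have h2 := congrArg (fun e => (e.2 ⟨x, h1⟩).1) h
          exact h2
    · rintro ⟨f, g⟩
      have hcc := arc_irrefl F c
      let φ : X → V := fun x => if h : F.Arc x c then (f ⟨x, h⟩).1 else
        if h' : F.Arc c x then (g ⟨x, h'⟩).1 else s
      have φ1 : ∀ x (h : F.Arc x c), φ x = (f ⟨x, h⟩).1 := fun x h => dif_pos h
      have φ2 : ∀ x (h : F.Arc c x), φ x = (g ⟨x, h⟩).1 := fun x h => by
        show (if h : F.Arc x c then (f ⟨x, h⟩).1 else
          if h' : F.Arc c x then (g ⟨x, h'⟩).1 else s) = _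
        rw [dif_neg (F.asymm _ _ h), dif_pos h]
      have φ3 : φ c = s := by
        show (if h : F.Arc c c then (f ⟨c, h⟩).1 else
          if h' : F.Arc c c then (g ⟨c, h'⟩).1 else s) = _
        rw [dif_neg hcc, dif_neg hcc]
      have n1 : ∀ x (h : F.Arc x c), G.Arc (φ x) s := fun x h => by
        rw [φ1 x h]; exact (f ⟨x, h⟩).2
      have n2 : ∀ x (h : F.Arc c x), G.Arc s (φ x) := fun x h => by
        rw [φ2 x h]; exact (g ⟨x, h⟩).2
      have hss := arc_irrefl G s
      refine ⟨⟨φ, ⟨?_, ?_⟩, φ3⟩, ?_⟩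
      · intro x y hxy
        by_cases hx : x = c
        · by_cases hy : y = c
          · rw [hx, hy]
          · exfalso
            rw [hx, φ3] at hxy
            rcases star_cases F hF hc hy with h1 | h1
            · exact hss (by have := n1 y h1; rwa [← hxy] at this)
            · exact hss (by have := n2 y h1; rwa [← hxy] at this)
        · by_cases hy : y = c
          · exfalso
            rw [hy, φ3] at hxy
            rcases star_cases F hF hc hx with h1 | h1
            · exact hss (by have := n1 x h1; rwa [hxy] at this)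
            · exact hss (by have := n2 x h1; rwa [hxy] at this)
          · rcases star_cases F hF hc hx with h1 | h1
            · rcases star_cases F hF hc hy with h2 | h2
              · rw [φ1 x h1, φ1 y h2] at hxy
                exact congrArg Subtype.val (f.injective (Subtype.ext hxy))
              · exfalso
                have h3 := n1 x h1
                rw [hxy] at h3
                exact G.asymm _ _ h3 (n2 y h2)
            · rcases star_cases F hF hc hy with h2 | h2
              · exfalso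
                have h3 := n2 x h1
                rw [hxy] at h3
                exact G.asymm _ _ h3 (n1 y h2)
              · rw [φ2 x h1, φ2 y h2] at hxy
                exact congrArg Subtype.val (g.injective (Subtype.ext hxy))
      · intro x y hxy
        rcases hc _ _ hxy with h1 | h1
        · rw [h1] at hxy ⊢
          rw [φ3]
          exact n2 y hxy
        · rw [h1] at hxy ⊢
          rw [φ3]
          exact n1 x hxy
      · refine Prod.ext ?_ ?_
        · refine Function.Embedding.ext fun x => Subtype.ext ?_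
          exact φ1 x.1 x.2
        · refine Function.Embedding.ext fun x => Subtype.ext ?_
          exact φ2 x.1 x.2
  rw [e, Nat.card_prod]
  simp only [Nat.card_eq_fintype_card, Fintype.card_embedding_eq]

/-- the number of the homomorphisms of a star with the centre `s` -/
noncomputable def TT (p q : ℕ) (s : V) : ℕ :=
  (Nat.card {a // G.Arc a s}).descFactorial p * (Nat.card {b // G.Arc s b}).descFactorial q

theorem card_tot [Finite X] [Fintype V] (hF : F.WeaklyConnected) {c : X}
    (hc : ∀ x y, F.Arc x y → x = c ∨ y = c) :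
    (homs F G (fun _ => True)).ncard =
      ∑ s, TT G (Nat.card {x // F.Arc x c}) (Nat.card {y // F.Arc c y}) s := by
  classical
  let Y : Type := {φ : X → V // Function.Injective φ ∧ IsHom F G φ}
  have h1 : (homs F G (fun _ => True)).ncard = Nat.card Y := by
    have h0 : homs F G (fun _ => True) = {φ : X → V | Function.Injective φ ∧ IsHom F G φ} := by
      ext φ
      simp [homs]
    rw [h0]
    rfl
  have h2 : Nat.card Y = Nat.card (Σ s : V, {φ : Y // φ.1 c = s}) :=
    (Nat.card_congr (Equiv.sigmaFiberEquiv (fun φ : Y => φ.1 c))).symm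
  rw [h1, h2, Nat.card_sigma]
  refine Finset.sum_congr rfl fun s _ => ?_
  have h3 : Nat.card {φ : Y // φ.1 c = s} = Nat.card (FibT F G c s) :=
    Nat.card_congr (Equiv.subtypeSubtypeEquivSubtypeInter
      (fun φ : X → V => Function.Injective φ ∧ IsHom F G φ)
      (fun φ => φ c = s))
  rw [h3]
  exact card_fibT F G hF hc s

theorem hc_add [Finite X] [Fintype V] (hF : F.WeaklyConnected) {c : X}
    (hc' : ∀ x y, F.Arc x y → x = c ∨ y = c) (v : V) :
    hc F G v + Ms G (Nat.card {x // F.Arc x c}) (Nat.card {y // F.Arc c y}) v =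
      ∑ s, TT G (Nat.card {x // F.Arc x c}) (Nat.card {y // F.Arc c y}) s := by
  rw [← card_tot F G hF hc', ← card_miss F G hF hc' v]
  unfold hc
  rw [← Set.ncard_union_eq _ (Set.toFinite _) (Set.toFinite _)]
  · congr 1
    ext φ
    simp only [homs, Set.mem_union, Set.mem_setOf_eq]
    tauto
  · rw [Set.disjoint_left]
    intro φ h3 h4
    exact h4.2.2 h3.2.2

theorem tm_le [Finite V] (p q : ℕ) (v s : V) : tm G p q v s ≤ TT G p q s := by
  classical
  by_cases h : s = v
  · rw [h, tm_self]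
    exact Nat.zero_le _
  · rw [tm_ne G p q h]
    unfold TT
    refine Nat.mul_le_mul (Nat.descFactorial_le _ ?_) (Nat.descFactorial_le _ ?_)
    · exact Nat.card_le_card_of_injective
        (fun a : {a // G.Arc a s ∧ a ≠ v} => (⟨a.1, a.2.1⟩ : {a // G.Arc a s}))
        (fun a b hab => Subtype.ext (congrArg (fun z : {a // G.Arc a s} => z.1) hab))
    · exact Nat.card_le_card_of_injective
        (fun a : {b // G.Arc s b ∧ b ≠ v} => (⟨a.1, a.2.1⟩ : {b // G.Arc s b}))
        (fun a b hab => Subtype.ext (congrArg (fun z : {b // G.Arc s b} => z.1) hab))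

theorem hc_ge [Finite X] [Fintype V] (hF : F.WeaklyConnected) {c : X}
    (hc' : ∀ x y, F.Arc x y → x = c ∨ y = c) (v s : V) :
    TT G (Nat.card {x // F.Arc x c}) (Nat.card {y // F.Arc c y}) s ≤
      hc F G v + tm G (Nat.card {x // F.Arc x c}) (Nat.card {y // F.Arc c y}) v s := by
  classical
  have h := hc_add F G hF hc' v
  unfold Ms at h
  rw [← Finset.add_sum_erase _ _ (mem_univ s), ← Finset.add_sum_erase _ (fun s => TT G _ _ s)
    (mem_univ s)] at h
  have h1 : ∑ x ∈ univ.erase s, tm G (Nat.card {x // F.Arc x c}) (Nat.card {y // F.Arc c y}) v x ≤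
      ∑ x ∈ univ.erase s, TT G (Nat.card {x // F.Arc x c}) (Nat.card {y // F.Arc c y}) x :=
    Finset.sum_le_sum fun x _ => tm_le G _ _ v x
  omega

theorem inj_hc [Finite X] [Fintype V] (hF : F.WeaklyConnected) {c : X}
    (hc' : ∀ x y, F.Arc x y → x = c ∨ y = c)
    (h : Function.Injective (Ms G (Nat.card {x // F.Arc x c}) (Nat.card {y // F.Arc c y}))) :
    Function.Injective (hc F G) := by
  intro v v' he
  apply h
  have h1 := hc_add F G hF hc' v
  have h2 := hc_add F G hF hc' v'
  omega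

end Hom

theorem hc_rev {X V : Type} (F : OrientedGraph X) (G : OrientedGraph V) (v : V) :
    hc (K7.H12.FI.rev F) (K7.H12.FI.rev G) v = hc F G v := by
  unfold hc
  congr 1
  ext φ
  constructor
  · rintro ⟨h1, h2, h3⟩
    exact ⟨h1, fun x y h => h2 y x h, h3⟩
  · rintro ⟨h1, h2, h3⟩
    exact ⟨h1, fun x y h => h2 y x h, h3⟩

theorem ev_rev {X : Type} {F : OrientedGraph X} (h : EV (K7.H12.FI.rev F)) : EV F := by
  obtain ⟨k, hk⟩ := h
  refine ⟨k, fun L => ?_⟩
  obtain ⟨N, hN⟩ := hk L
  refine ⟨N, fun n hn => ?_⟩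
  obtain ⟨V, hV, G, h1, h2, h3⟩ := hN n hn
  refine ⟨V, hV, K7.H12.FI.rev G, h1, ?_, ?_⟩
  · intro v v' he
    apply h2
    rw [← hc_rev F, ← hc_rev F] at he
    exact he
  · intro v
    rw [← hc_rev F]
    exact h3 v

theorem TT_Gn (n h p q : ℕ) (i : Fin n) : TT (Gn n h) p q (.inl i) =
    (Dg n h i).descFactorial p * n.descFactorial q := by
  unfold TT
  have h1 : Nat.card {a // (Gn n h).Arc a (.inl i)} = Dg n h i := indeg n h i
  have h2 : Nat.card {b // (Gn n h).Arc (.inl i) b} = n := outdeg n h i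
  rw [h1, h2]

theorem fall (n q : ℕ) (hq : 2 ≤ q) (hn : q ≤ n) :
    n - 1 + (n - 1).descFactorial q ≤ n.descFactorial q := by
  obtain ⟨m, rfl⟩ : ∃ m, n = m + 1 := ⟨n - 1, by omega⟩
  obtain ⟨r, rfl⟩ : ∃ r, q = r + 1 := ⟨q - 1, by omega⟩
  rw [Nat.succ_descFactorial_succ, Nat.add_sub_cancel, Nat.descFactorial_succ]
  obtain ⟨l, hl⟩ : ∃ l, m = l + r := ⟨m - r, by omega⟩
  have h1 : m - r = l := by omega
  have h2 : m ≤ m.descFactorial r := by
    obtain ⟨r', rfl⟩ : ∃ r', r = r' + 1 := ⟨r - 1, by omega⟩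
    obtain ⟨m', rfl⟩ : ∃ m', m = m' + 1 := ⟨m - 1, by omega⟩
    rw [Nat.succ_descFactorial_succ]
    exact Nat.le_mul_of_pos_right _ (Nat.descFactorial_pos.2 (by omega))
  rw [h1]
  have h3 : (m + 1) = l + (r + 1) := by omega
  rw [h3, Nat.add_mul]
  have h4 : m.descFactorial r ≤ (r + 1) * m.descFactorial r :=
    Nat.le_mul_of_pos_left _ (by omega)
  omega

theorem le_desc {n q : ℕ} (hq : 1 ≤ q) (hn : q ≤ n) : n ≤ n.descFactorial q := by
  obtain ⟨r', rfl⟩ : ∃ r', q = r' + 1 := ⟨q - 1, by omega⟩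
  obtain ⟨m', rfl⟩ : ∃ m', n = m' + 1 := ⟨n - 1, by omega⟩
  rw [Nat.succ_descFactorial_succ]
  exact Nat.le_mul_of_pos_right _ (Nat.descFactorial_pos.2 (by omega))

/-- out-stars -/
theorem has_out {X : Type} [Finite X] (F : OrientedGraph X) (hF : F.WeaklyConnected) (c : X)
    (hc' : ∀ x y, F.Arc x y → x = c ∨ y = c) (hp : Nat.card {x // F.Arc x c} = 0)
    (hq : 2 ≤ Nat.card {y // F.Arc c y}) : EV F := by
  classical
  set q := Nat.card {y // F.Arc c y} with hqdef
  have base : ∀ n L, q ≤ n → ¬ q ∣ n → L + 1 < n → HasG F (2 * n) L := by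
    intro n L hn hqn hL
    have hn0 : 0 < n := by omega
    refine ⟨Vn n 0, inferInstance, Gn n 0, ?_, ?_, ?_⟩
    · rw [card_Vn]
      ring
    · refine inj_hc F _ hF hc' ?_
      rw [hp, ← hqdef]
      exact inj_zero n q (by omega) hn hqn
    · have hfall := fall n q hq hn
      have hn1 : n - 1 ≤ n.descFactorial q := by omega
      rintro (i | (j | k))
      · have h := hc_ge F (Gn n 0) hF hc' (.inl i) (.inl i)
        rw [tm_self, hp, ← hqdef, TT_Gn, Nat.descFactorial_zero, one_mul] at h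
        omega
      · have h := hc_ge F (Gn n 0) hF hc' (.inr (.inl j)) (.inl ⟨0, hn0⟩)
        have h0 : (.inl ⟨0, hn0⟩ : Vn n 0) ≠ .inr (.inl j) := fun h => by cases h
        have hle : (⟨0, hn0⟩ : Fin n) ≤ j := Fin.mk_le_of_le_val (Nat.zero_le _)
        rw [hp, ← hqdef, TT_Gn, tm_in n 0 0 q ⟨0, hn0⟩ h0 0 1 (Or.inr ⟨fun h => h, rfl⟩)
          (Or.inl ⟨hle, rfl⟩), Nat.descFactorial_zero, Nat.descFactorial_zero, one_mul,
          one_mul] at h
        omega
      · exact k.elim0
  refine ⟨0, fun L => ?_⟩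
  have h1 : ¬ q ∣ q * (L + 2) + 1 := by
    intro hd
    have h1 : q ∣ 1 := (Nat.dvd_add_right (Dvd.intro _ rfl)).1 hd
    have := Nat.le_of_dvd one_pos h1
    omega
  have hL : L + 2 ≤ q * (L + 2) := Nat.le_mul_of_pos_left _ (by omega)
  have hqL : q ≤ q * (L + 2) := Nat.le_mul_of_pos_right _ (by omega)
  obtain ⟨U, hU⟩ := hasG_add hF (base (q * (L + 2) + 1) L (by omega) h1 (by omega))
  refine ⟨q + (q * (L + 2) + 1) + U + L + 3, fun n hn => ?_⟩
  rw [Nat.add_zero]
  by_cases hqn : q ∣ n
  · have h3 := hU _ (base (n - (q * (L + 2) + 1)) U (by omega) ?_ (by omega))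
    · have h4 : 2 * (n - (q * (L + 2) + 1)) + 2 * (q * (L + 2) + 1) = 2 * n := by omega
      rwa [h4] at h3
    · intro hd
      apply h1
      have := (Nat.dvd_sub hqn hd)
      have h5 : n - (n - (q * (L + 2) + 1)) = q * (L + 2) + 1 := by omega
      rwa [h5] at this
  · exact base n L (by omega) hqn (by omega)

/-- stars with at least two arcs to the centre and at most as many arcs from the centre -/
theorem has_two {X : Type} [Finite X] (F : OrientedGraph X) (hF : F.WeaklyConnected) (c : X)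
    (hc' : ∀ x y, F.Arc x y → x = c ∨ y = c) (hp : 2 ≤ Nat.card {x // F.Arc x c})
    (hq : 1 ≤ Nat.card {y // F.Arc c y})
    (hqp : Nat.card {y // F.Arc c y} ≤ Nat.card {x // F.Arc x c}) : EV F := by
  classical
  set q := Nat.card {y // F.Arc c y} with hqdef
  set p := Nat.card {x // F.Arc x c} with hpdef
  obtain ⟨n0, h0⟩ := inj_pos p q hp hq hqp
  refine ⟨p + 1, fun L => ⟨n0 + p + 2 + L, fun n hn => ?_⟩⟩
  have hn0 : 0 < n := by omega
  have hD : ∀ i : Fin n, p ≤ Dg n (p + 1) i := fun i => by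
    have := Dg_ge (n := n) (h := p + 1) i.2 (by omega)
    omega
  refine ⟨Vn n (p + 1), inferInstance, Gn n (p + 1), ?_, ?_, ?_⟩
  · rw [card_Vn]
    ring
  · refine inj_hc F _ hF hc' ?_
    rw [← hpdef, ← hqdef]
    exact h0 n (by omega)
  · have hpos : ∀ i : Fin n, 0 < (Dg n (p + 1) i).descFactorial p := fun i =>
      Nat.descFactorial_pos.2 (hD i)
    have hposq : n ≤ n.descFactorial q := le_desc hq (by omega)
    rintro (i | (j | k))
    · have h := hc_ge F (Gn n (p + 1)) hF hc' (.inl i) (.inl i)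
      rw [tm_self, ← hpdef, ← hqdef, TT_Gn] at h
      have := Nat.mul_le_mul (hpos i) hposq
      omega
    · have h := hc_ge F (Gn n (p + 1)) hF hc' (.inr (.inl j)) (.inl ⟨0, hn0⟩)
      have h0 : (.inl ⟨0, hn0⟩ : Vn n (p + 1)) ≠ .inr (.inl j) := fun h => by cases h
      have hle : (⟨0, hn0⟩ : Fin n) ≤ j := Fin.mk_le_of_le_val (Nat.zero_le _)
      rw [← hpdef, ← hqdef, TT_Gn, tm_in n (p + 1) p q ⟨0, hn0⟩ h0 0 1
        (Or.inr ⟨fun h => h, rfl⟩) (Or.inl ⟨hle, rfl⟩), Nat.sub_zero] at h
      have h5 : (n - 1).descFactorial q < n.descFactorial q :=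
        desc_lt hq (by omega) (by omega)
      have h6 := Nat.mul_le_mul_left ((Dg n (p + 1) (⟨0, hn0⟩ : Fin n)).descFactorial p) h5
      rw [Nat.mul_succ] at h6
      have h7 : Dg n (p + 1) (⟨0, hn0⟩ : Fin n) ≤
          (Dg n (p + 1) (⟨0, hn0⟩ : Fin n)).descFactorial p := le_desc (by omega) (hD _)
      have h8 : n - 1 ≤ Dg n (p + 1) (⟨0, hn0⟩ : Fin n) := by
        unfold Dg
        show n - 1 ≤ n - 1 - 0 + _
        omega
      omega
    · have h := hc_ge F (Gn n (p + 1)) hF hc' (.inr (.inr k)) (.inl ⟨0, hn0⟩)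
      have h0 : (.inl ⟨0, hn0⟩ : Vn n (p + 1)) ≠ .inr (.inr k) := fun h => by cases h
      have hk := k.2
      have hadj : Ar n (p + 1) (.inr (.inr k)) (.inl ⟨0, hn0⟩) := by
        show 0 + (k : ℕ) + 1 ≠ n
        omega
      rw [← hpdef, ← hqdef, TT_Gn, tm_in n (p + 1) p q ⟨0, hn0⟩ h0 1 0
        (Or.inl ⟨hadj, rfl⟩) (Or.inr ⟨fun h => h, rfl⟩), Nat.sub_zero] at h
      have h5 : (Dg n (p + 1) (⟨0, hn0⟩ : Fin n) - 1).descFactorial p <
          (Dg n (p + 1) (⟨0, hn0⟩ : Fin n)).descFactorial p := by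
        have := hD ⟨0, hn0⟩
        exact desc_lt (by omega) (by omega) (by omega)
      have h6 := Nat.mul_le_mul_right (n.descFactorial q) h5
      rw [Nat.succ_mul] at h6
      omega

end Pool.Agent.H81.FI
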