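import Pool.Graph.R_pool_sql_team_seeded_35f281b4.K7.H12.FI.All

/-!
# Disjoint unions and numbers of copies
-/

set_option autoImplicit false

namespace Pool.Agent.H81.FI

open Pool.Agent.K7.H15.Irr Pool.Agent.K7.H12.FI

/-- the number of the injective homomorphisms through `v` -/
noncomputable def hc {X V : Type} (F : OrientedGraph X) (G : OrientedGraph V) (v : V) : ℕ :=
  (homs F G (fun φ => v ∈ Set.range φ)).ncard

/-- the disjoint union -/
def dsum {V W : Type} (G : OrientedGraph V) (H : OrientedGraph W) : OrientedGraph (V ⊕ W) where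
  Arc a b := match a, b with
    | .inl a, .inl b => G.Arc a b
    | .inr a, .inr b => H.Arc a b
    | .inl _, .inr _ => False
    | .inr _, .inl _ => False
  asymm := by
    rintro (a | a) (b | b) h h'
    · exact G.asymm _ _ h h'
    · exact h
    · exact h
    · exact H.asymm _ _ h h'

/-- the graph with one vertex -/
def one : OrientedGraph Unit where
  Arc _ _ := False
  asymm := fun _ _ h _ => h

section

variable {X V W : Type} (F : OrientedGraph X) (G : OrientedGraph V) (H : OrientedGraph W)

theorem side {φ : X → V ⊕ W} (h : IsHom F (dsum G H) φ) (hF : F.WeaklyConnected) (x y : X) :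
    (φ x).isLeft = (φ y).isLeft := by
  have key : ∀ a b, F.Arc a b → (φ a).isLeft = (φ b).isLeft := by
    intro a b hab
    have h1 := h a b hab
    rcases ha : φ a with u | u <;> rcases hb : φ b with w | w <;> rw [ha, hb] at h1
    · rfl
    · exact h1.elim
    · exact h1.elim
    · rfl
  obtain ⟨p⟩ := hF.preconnected x y
  induction p with
  | nil => rfl
  | cons hadj _ ih =>
    rcases hadj with h1 | h1
    · exact (key _ _ h1).trans ih
    · exact (key _ _ h1).symm.trans ih

theorem hc_inl (hF : F.WeaklyConnected) (v : V) : hc F (dsum G H) (Sum.inl v) = hc F G v := by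
  unfold hc
  have hinj : Function.Injective (fun (ψ : X → V) => (fun x => (Sum.inl (ψ x) : V ⊕ W))) := by
    intro ψ ψ' h
    funext x
    exact Sum.inl_injective (congrFun h x)
  rw [← Set.ncard_image_of_injective _ hinj]
  congr 1
  ext φ
  constructor
  · rintro ⟨h1, h2, ⟨x0, h3⟩⟩
    have hl : ∀ x, (φ x).isLeft = true := by
      intro x
      rw [side F G H h2 hF x x0, h3]
      rfl
    choose ψ hψ using fun x => Sum.isLeft_iff.1 (hl x)
    refine ⟨ψ, ⟨?_, ?_, ⟨x0, ?_⟩⟩, ?_⟩
    · intro x y hxy
      apply h1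
      rw [hψ, hψ, hxy]
    · intro x y hxy
      have := h2 x y hxy
      rw [hψ, hψ] at this
      exact this
    · rw [hψ] at h3
      exact Sum.inl_injective h3
    · funext x
      exact (hψ x).symm
  · rintro ⟨ψ, ⟨h1, h2, ⟨x0, h3⟩⟩, rfl⟩
    refine ⟨?_, ?_, ⟨x0, ?_⟩⟩
    · intro x y hxy
      exact h1 (Sum.inl_injective hxy)
    · intro x y hxy
      exact h2 x y hxy
    · show Sum.inl (ψ x0) = Sum.inl v
      rw [h3]

theorem hc_inr (hF : F.WeaklyConnected) (v : W) : hc F (dsum G H) (Sum.inr v) = hc F H v := by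
  unfold hc
  have hinj : Function.Injective (fun (ψ : X → W) => (fun x => (Sum.inr (ψ x) : V ⊕ W))) := by
    intro ψ ψ' h
    funext x
    exact Sum.inr_injective (congrFun h x)
  rw [← Set.ncard_image_of_injective _ hinj]
  congr 1
  ext φ
  constructor
  · rintro ⟨h1, h2, ⟨x0, h3⟩⟩
    have hl : ∀ x, (φ x).isRight = true := by
      intro x
      have h4 := side F G H h2 hF x x0
      rw [h3] at h4
      rcases hx : φ x with u | u
      · rw [hx] at h4
        cases h4
      · rfl
    choose ψ hψ using fun x => Sum.isRight_iff.1 (hl x)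
    refine ⟨ψ, ⟨?_, ?_, ⟨x0, ?_⟩⟩, ?_⟩
    · intro x y hxy
      apply h1
      rw [hψ, hψ, hxy]
    · intro x y hxy
      have := h2 x y hxy
      rw [hψ, hψ] at this
      exact this
    · rw [hψ] at h3
      exact Sum.inr_injective h3
    · funext x
      exact (hψ x).symm
  · rintro ⟨ψ, ⟨h1, h2, ⟨x0, h3⟩⟩, rfl⟩
    refine ⟨?_, ?_, ⟨x0, ?_⟩⟩
    · intro x y hxy
      exact h1 (Sum.inr_injective hxy)
    · intro x y hxy
      exact h2 x y hxy
    · show Sum.inr (ψ x0) = Sum.inr v
      rw [h3]

theorem irregular_of_hc [Finite X] [Finite V] (h : Function.Injective (hc F G)) :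
    Irregular F G := by
  obtain ⟨c, hcc⟩ := stAut X V F G
  intro x y hxy he
  apply hxy
  apply h
  show (homs F G (fun φ => x ∈ Set.range φ)).ncard = (homs F G (fun φ => y ∈ Set.range φ)).ncard
  rw [hcc, hcc, he]

end

/-- there is a graph with `n` vertices whose numbers of copies are different and larger than `L` -/
def HasG {X : Type} (F : OrientedGraph X) (n L : ℕ) : Prop :=
  ∃ (V : Type) (_ : Finite V) (G : OrientedGraph V), Nat.card V = n ∧
    Function.Injective (hc F G) ∧ ∀ v, L < hc F G v

/-- there is a graph with `n` vertices whose numbers of copies are different -/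
def Has {X : Type} (F : OrientedGraph X) (n : ℕ) : Prop :=
  ∃ (V : Type) (_ : Finite V) (G : OrientedGraph V), Nat.card V = n ∧ Function.Injective (hc F G)

theorem HasG.has {X : Type} {F : OrientedGraph X} {n L : ℕ} (h : HasG F n L) : Has F n := by
  obtain ⟨V, hV, G, h1, h2, _⟩ := h
  exact ⟨V, hV, G, h1, h2⟩

theorem HasG.mono {X : Type} {F : OrientedGraph X} {n L L' : ℕ} (h : HasG F n L) (hL : L' ≤ L) :
    HasG F n L' := by
  obtain ⟨V, hV, G, h1, h2, h3⟩ := h
  exact ⟨V, hV, G, h1, h2, fun v => lt_of_le_of_lt hL (h3 v)⟩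

theorem hasG_add {X : Type} {F : OrientedGraph X} (hF : F.WeaklyConnected) {m L : ℕ}
    (hm : HasG F m L) : ∃ U, ∀ n, HasG F n U → HasG F (n + m) L := by
  classical
  obtain ⟨W, hW, H, h1, h2, h3⟩ := hm
  have := Fintype.ofFinite W
  refine ⟨L + ∑ w, hc F H w, ?_⟩
  rintro n ⟨V, hV, G, g1, g2, g3⟩
  have hle : ∀ w, hc F H w ≤ ∑ w, hc F H w := fun w =>
    Finset.single_le_sum (f := fun w => hc F H w) (fun _ _ => Nat.zero_le _) (Finset.mem_univ w)
  refine ⟨V ⊕ W, inferInstance, dsum G H, ?_, ?_, ?_⟩
  · rw [Nat.card_sum, g1, h1]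
  · rintro (v | v) (w | w) he
    · rw [hc_inl F G H hF, hc_inl F G H hF] at he
      rw [g2 he]
    · rw [hc_inl F G H hF, hc_inr F G H hF] at he
      have := g3 v
      have := hle w
      omega
    · rw [hc_inl F G H hF, hc_inr F G H hF] at he
      have := g3 w
      have := hle v
      omega
    · rw [hc_inr F G H hF, hc_inr F G H hF] at he
      rw [h2 he]
  · rintro (v | v)
    · rw [hc_inl F G H hF]
      have := g3 v
      omega
    · rw [hc_inr F G H hF]
      exact h3 v

theorem has_succ {X : Type} [Finite X] {F : OrientedGraph X} (hF : F.WeaklyConnected)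
    (h2 : 2 ≤ Nat.card X) {n : ℕ} (hn : HasG F n 0) : Has F (n + 1) := by
  classical
  obtain ⟨V, hV, G, g1, g2, g3⟩ := hn
  have hz : ∀ w, hc F one w = 0 := by
    intro w
    unfold hc
    rw [Set.ncard_eq_zero (Set.toFinite _)]
    rw [Set.eq_empty_iff_forall_notMem]
    rintro φ ⟨k1, _, _⟩
    have h4 := Nat.card_le_card_of_injective φ k1
    rw [(Nat.card_unique : Nat.card Unit = 1)] at h4
    omega
  refine ⟨V ⊕ Unit, inferInstance, dsum G one, ?_, ?_⟩
  · rw [Nat.card_sum, g1, Nat.card_unique]
  · rintro (v | v) (w | w) he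
    · rw [hc_inl F G one hF, hc_inl F G one hF] at he
      rw [g2 he]
    · rw [hc_inl F G one hF, hc_inr F G one hF, hz] at he
      have := g3 v
      omega
    · rw [hc_inl F G one hF, hc_inr F G one hF, hz] at he
      have := g3 w
      omega
    · rfl

end Pool.Agent.H81.FI
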